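import Pool.Agent.NIL.Defs

/-!
# The lower central series is a filtration
-/

set_option autoImplicit false

namespace Pool.Agent.NIL

/-- the three subgroups lemma modulo a normal subgroup -/
private theorem three_sub {G : Type} [Group G] (N : Subgroup G) [N.Normal]
    (H₁ H₂ H₃ : Subgroup G) (h1 : ⁅⁅H₂, H₃⁆, H₁⁆ ≤ N) (h2 : ⁅⁅H₃, H₁⁆, H₂⁆ ≤ N) :
    ⁅⁅H₁, H₂⁆, H₃⁆ ≤ N := by
  have key : ∀ K : Subgroup G, K.map (QuotientGroup.mk' N) = ⊥ ↔ K ≤ N := by
    intro K
    rw [Subgroup.map_eq_bot_iff, QuotientGroup.ker_mk']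
  rw [← key] at h1 h2 ⊢
  rw [Subgroup.map_commutator, Subgroup.map_commutator] at h1 h2 ⊢
  exact Subgroup.commutator_commutator_eq_bot_of_rotate h1 h2

/-- `[γ_i, γ_j] ≤ γ_(i+j)`, by induction on `j` with the three subgroups lemma
(`Subgroup.commutator_commutator_eq_bot_of_rotate`, applied in a quotient, or Hall-Witt). -/
theorem lcs_comm (G : Type) [Group G] (i j : ℕ) :
    ⁅(⊤ : Subgroup G).lowerCentralSeries i, (⊤ : Subgroup G).lowerCentralSeries j⁆ ≤
      (⊤ : Subgroup G).lowerCentralSeries (i + j + 1) := by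
  induction j generalizing i with
  | zero => exact le_refl _
  | succ j ih =>
    rw [Subgroup.lowerCentralSeries_succ _ j, Subgroup.commutator_comm]
    refine three_sub _ _ _ _ ?_ ?_
    · have h1 := ih (i + 1)
      rw [Subgroup.commutator_comm ⊤ ((⊤ : Subgroup G).lowerCentralSeries i)]
      have h2 : i + 1 + j + 1 = i + (j + 1) + 1 := by omega
      rw [h2] at h1
      exact h1
    · exact Subgroup.commutator_mono (ih i) (le_refl _)

theorem lcs_filt (G : Type) [Group G] :
    Filt (fun n => (⊤ : Subgroup G).lowerCentralSeries (n - 1)) where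
  anti := fun a b hab => (⊤ : Subgroup G).lowerCentralSeries_antitone (by omega)
  zero := rfl
  one := rfl
  comm := fun i j => (lcs_comm G (i - 1) (j - 1)).trans
    ((⊤ : Subgroup G).lowerCentralSeries_antitone (by omega))

end Pool.Agent.NIL
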