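import Pool.Agent.NIL.SubW

/-!
# Subwords given by sets of positions
-/

set_option autoImplicit false

namespace Pool.Agent.NIL

variable {A : Type}

theorem sub_nil (ω : Finset ℕ) : sub ([] : List A) ω = [] := by
  simp [sub]

open Classical in
theorem sub_append_singleton (x : List A) (a : A) (ω : Finset ℕ) :
    sub (x ++ [a]) ω = sub x ω ++ if x.length ∈ ω then [a] else [] := by
  unfold sub
  rw [List.zipIdx_append, List.filter_append, List.map_append]
  congr 1
  by_cases h : x.length ∈ ω
  · simp [h]
  · simp [h]

private theorem snd_lt {x : List A} {p : A × ℕ} (hp : p ∈ x.zipIdx) : p.2 < x.length := by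
  have := List.snd_lt_of_mem_zipIdx hp
  simpa using this

theorem sub_range (x : List A) : sub x (Finset.range x.length) = x := by
  unfold sub
  rw [List.filter_eq_self.mpr]
  · exact List.zipIdx_map_fst 0 x
  · intro p hp
    simpa using snd_lt hp

/-- `sub` only depends on the positions below the length -/
theorem sub_congr (x : List A) (ω ω' : Finset ℕ) (h : ∀ i < x.length, i ∈ ω ↔ i ∈ ω') :
    sub x ω = sub x ω' := by
  unfold sub
  congr 1
  apply List.filter_congr
  intro p hp
  rw [decide_eq_decide]
  exact h p.2 (snd_lt hp)

theorem sub_length_lt (x : List A) (ω : Finset ℕ) (h : ω ⊂ Finset.range x.length) :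
    (sub x ω).length < x.length := by
  unfold sub
  rw [List.length_map]
  have hl : x.zipIdx.length = x.length := by simp
  rw [← hl]
  rw [List.length_filter_lt_length_iff_exists]
  obtain ⟨i, hi, hni⟩ := Finset.exists_of_ssubset h
  rw [Finset.mem_range] at hi
  refine ⟨(x[i], i), ?_, by simpa using hni⟩
  rw [List.mem_zipIdx_iff_getElem?]
  simp [hi]

private theorem sub_app_lt (x : List A) (a : A) (J : Finset ℕ)
    (hJ : J ∈ (Finset.range x.length).powerset) : sub (x ++ [a]) J = sub x J := by
  rw [sub_append_singleton, if_neg, List.append_nil]
  intro h
  have := Finset.mem_range.mp (Finset.mem_powerset.mp hJ h)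
  omega

private theorem sub_app_ins (x : List A) (a : A) (J : Finset ℕ) :
    sub (x ++ [a]) (insert x.length J) = sub x J ++ [a] := by
  rw [sub_append_singleton, if_pos (Finset.mem_insert_self _ _)]
  congr 1
  apply sub_congr
  intro i hi
  rw [Finset.mem_insert]
  constructor
  · rintro (h | h)
    · omega
    · exact h
  · exact fun h => Or.inr h

open Classical in
private theorem cnt_append (x : List A) (a : A) (ω : Finset ℕ) (u : List A) :
    ((Finset.range (x ++ [a]).length).powerset.filter
        (fun J => J ⊆ ω ∧ sub (x ++ [a]) J = u)).card =
      ((Finset.range x.length).powerset.filter (fun J => J ⊆ ω ∧ sub x J = u)).card +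
      if x.length ∈ ω then
        ((Finset.range x.length).powerset.filter (fun J => J ⊆ ω ∧ sub x J ++ [a] = u)).card
      else 0 := by
  have hn : x.length ∉ Finset.range x.length := by simp
  rw [List.length_append, List.length_singleton, Finset.range_add_one, Finset.powerset_insert,
    Finset.filter_union, Finset.card_union_of_disjoint]
  · congr 1
    · congr 1
      apply Finset.filter_congr
      intro J hJ
      rw [sub_app_lt x a J hJ]
    · have hinj : Set.InjOn (insert x.length)
          (((Finset.range x.length).powerset.filter
            (fun J => insert x.length J ⊆ ω ∧ sub x J ++ [a] = u) : Finset (Finset ℕ)) :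
            Set (Finset ℕ)) := by
        intro J hJ J' hJ' hE
        have h1 : x.length ∉ J := by
          intro h
          have := (Finset.mem_filter.mp (Finset.mem_coe.mp hJ)).1
          exact hn (Finset.mem_powerset.mp this h)
        have h2 : x.length ∉ J' := by
          intro h
          have := (Finset.mem_filter.mp (Finset.mem_coe.mp hJ')).1
          exact hn (Finset.mem_powerset.mp this h)
        have h3 : (insert x.length J).erase x.length = (insert x.length J').erase x.length := by
          rw [hE]
        rwa [Finset.erase_insert h1, Finset.erase_insert h2] at h3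
      have himg : Finset.filter (fun J => J ⊆ ω ∧ sub (x ++ [a]) J = u)
          (Finset.image (insert x.length) (Finset.range x.length).powerset) =
          Finset.image (insert x.length) ((Finset.range x.length).powerset.filter
            (fun J => insert x.length J ⊆ ω ∧ sub x J ++ [a] = u)) := by
        ext K
        simp only [Finset.mem_filter, Finset.mem_image]
        constructor
        · rintro ⟨⟨J, hJ, rfl⟩, h1, h2⟩
          rw [sub_app_ins] at h2
          exact ⟨J, ⟨hJ, h1, h2⟩, rfl⟩
        · rintro ⟨J, ⟨hJ, h1, h2⟩, rfl⟩
          refine ⟨⟨J, hJ, rfl⟩, h1, ?_⟩
          rw [sub_app_ins]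
          exact h2
      rw [himg, Finset.card_image_of_injOn hinj]
      by_cases hω : x.length ∈ ω
      · rw [if_pos hω]
        congr 1
        apply Finset.filter_congr
        intro J _
        rw [Finset.insert_subset_iff]
        simp [hω]
      · rw [if_neg hω, Finset.card_eq_zero, Finset.filter_eq_empty_iff]
        intro J _ h
        exact hω (h.1 (Finset.mem_insert_self _ _))
  · rw [Finset.disjoint_left]
    intro K hK hK'
    rw [Finset.mem_filter] at hK hK'
    obtain ⟨J, _, rfl⟩ := Finset.mem_image.mp hK'.1
    exact hn (Finset.mem_powerset.mp hK.1 (Finset.mem_insert_self _ _))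

open Classical in
/-- the number of occurrences of `u` in a subword -/
theorem C_sub (x : List A) (ω : Finset ℕ) (u : List A) :
    C (sub x ω) u =
      (((Finset.range x.length).powerset.filter (fun J => J ⊆ ω ∧ sub x J = u)).card : ℤ) := by
  induction x using List.reverseRecOn generalizing u with
  | nil =>
    rw [sub_nil]
    cases u with
    | nil => simp [C_nil, sub_nil, Finset.filter_singleton]
    | cons b u => simp [C_nil_cons, sub_nil]
  | append_singleton x a ih =>
    rw [cnt_append, sub_append_singleton]
    by_cases hω : x.length ∈ ω
    · rw [if_pos hω, if_pos hω]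
      rcases List.eq_nil_or_concat u with rfl | ⟨v, b, rfl⟩
      · rw [C_nil]
        have h1 := ih []
        rw [C_nil] at h1
        push_cast
        rw [← h1]
        simp
      · simp only [List.concat_eq_append]
        rw [C_append_singleton]
        push_cast
        rw [ih (v ++ [b])]
        congr 1
        by_cases hab : a = b
        · subst hab
          rw [if_pos rfl, ih v]
          congr 2
          apply Finset.filter_congr
          intro J _
          simp
        · rw [if_neg hab]
          symm
          rw [Nat.cast_eq_zero, Finset.card_eq_zero, Finset.filter_eq_empty_iff]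
          rintro J _ ⟨_, h⟩
          have := List.append_inj_right' h rfl
          simp at this
          exact hab this
    · rw [if_neg hω, if_neg hω, List.append_nil, add_zero]
      exact ih u

theorem sub_card (x : List A) (J : Finset ℕ) (hJ : J ⊆ Finset.range x.length) :
    (sub x J).length = J.card := by
  induction x using List.reverseRecOn generalizing J with
  | nil =>
    rw [sub_nil]
    have : J = ∅ := by simpa using hJ
    simp [this]
  | append_singleton x a ih =>
    classical
    rw [List.length_append, List.length_singleton, Finset.range_add_one] at hJ
    by_cases h : x.length ∈ J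
    · have h1 : J = insert x.length (J.erase x.length) := (Finset.insert_erase h).symm
      rw [h1, sub_app_ins, List.length_append, List.length_singleton,
        Finset.card_insert_of_notMem (by simp), ih]
      rw [← Finset.subset_insert_iff]
      exact hJ
    · have h2 : J ⊆ Finset.range x.length := (Finset.subset_insert_iff_of_notMem h).mp hJ
      rw [sub_app_lt x a J (Finset.mem_powerset.mpr h2)]
      exact ih J h2

end Pool.Agent.NIL
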