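import Pool.Agent.NIL.HKm
import Pool.Agent.NIL.SubSet

/-!
# Words in nilpotent groups and subword counts
-/

set_option autoImplicit false

namespace Pool.Agent.NIL

variable {A G : Type} [Group G]

/-- polynomial maps from words to a filtered group -/
def PolyM (Γ : ℕ → Subgroup G) : Subgroup (List A → G) where
  carrier := {f | ∀ x : List A, (fun ω : Finset ℕ => f (sub x ω)) ∈ HK Γ x.length}
  mul_mem' := by
    intro f g hf hg x
    exact mul_mem (hf x) (hg x)
  one_mem' := by
    intro x
    exact one_mem _
  inv_mem' := by
    intro f hf x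
    exact inv_mem (hf x)

theorem mem_PolyM {Γ : ℕ → Subgroup G} {f : List A → G} :
    f ∈ PolyM (A := A) Γ ↔
      ∀ x : List A, (fun ω : Finset ℕ => f (sub x ω)) ∈ HK Γ x.length := Iff.rfl

theorem HK_mono (Γ : ℕ → Subgroup G) {n m : ℕ} (h : n ≤ m) : HK Γ n ≤ HK Γ m := by
  apply Subgroup.closure_mono
  rintro x ⟨J, hJ, g, hg, rfl⟩
  exact ⟨J, hJ.trans (Finset.range_subset_range.2 h), g, hg, rfl⟩

theorem hom_mem (Γ : ℕ → Subgroup G) (hΓ : Filt Γ) (f : A → G) :
    (fun w : List A => (w.map f).prod) ∈ PolyM (A := A) Γ := by
  classical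
  intro x
  induction x using List.reverseRecOn with
  | nil =>
    have : (fun ω : Finset ℕ => ((sub ([] : List A) ω).map f).prod) = 1 := by
      funext ω; rw [sub_nil]; rfl
    rw [this]; exact one_mem _
  | append_singleton x a ih =>
    have e : (fun ω : Finset ℕ => ((sub (x ++ [a]) ω).map f).prod) =
        (fun ω : Finset ℕ => ((sub x ω).map f).prod) * EJ {x.length} (f a) := by
      funext ω
      rw [Pi.mul_apply, sub_append_singleton]
      by_cases h : x.length ∈ ω
      · simp [EJ, h]
      · simp [EJ, h]
    rw [e]
    refine mul_mem (HK_mono Γ (by simp) ih) (EJ_mem ?_ ?_)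
    · simp
    · rw [Finset.card_singleton, hΓ.one]; exact Subgroup.mem_top _

/-- use `C_sub` and `EJ_mem` -/
theorem pow_mem (Γ : ℕ → Subgroup G) (_hΓ : Filt Γ) (u : List A) (g : G) (hg : g ∈ Γ u.length) :
    (fun w : List A => g ^ (C w u)) ∈ PolyM (A := A) Γ := by
  classical
  intro x
  show (fun ω : Finset ℕ => g ^ (C (sub x ω) u)) ∈ HK Γ x.length
  let S : Finset (Finset ℕ) := (Finset.range x.length).powerset.filter (fun J => sub x J = u)
  have key : ∀ T : Finset (Finset ℕ), T ⊆ S →
      (fun ω : Finset ℕ => g ^ (((T.filter (fun J => J ⊆ ω)).card : ℕ) : ℤ)) ∈ HK Γ x.length := by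
    intro T
    induction T using Finset.induction_on with
    | empty =>
      intro _
      have : (fun ω : Finset ℕ =>
          g ^ ((((∅ : Finset (Finset ℕ)).filter (fun J => J ⊆ ω)).card : ℕ) : ℤ)) = 1 := by
        funext ω; simp
      rw [this]; exact one_mem _
    | insert J T hJT ih =>
      intro hT
      have hJ : J ∈ S := hT (Finset.mem_insert_self _ _)
      have e : (fun ω : Finset ℕ =>
          g ^ ((((insert J T).filter (fun J => J ⊆ ω)).card : ℕ) : ℤ)) =
          (fun ω : Finset ℕ => g ^ (((T.filter (fun J => J ⊆ ω)).card : ℕ) : ℤ)) * EJ J g := by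
        funext ω
        rw [Pi.mul_apply, Finset.filter_insert]
        by_cases h : J ⊆ ω
        · rw [if_pos h, Finset.card_insert_of_notMem (by simp [hJT])]
          simp only [EJ, h, if_true]
          push_cast
          rw [zpow_add_one]
        · rw [if_neg h]
          simp [EJ, h]
      rw [e]
      rw [Finset.mem_filter, Finset.mem_powerset] at hJ
      refine mul_mem (ih (fun K hK => hT (Finset.mem_insert_of_mem hK))) (EJ_mem hJ.1 ?_)
      rw [← sub_card x J hJ.1, hJ.2]
      exact hg
  have e : (fun ω : Finset ℕ => g ^ (C (sub x ω) u)) =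
      (fun ω : Finset ℕ => g ^ (((S.filter (fun J => J ⊆ ω)).card : ℕ) : ℤ)) := by
    funext ω
    rw [C_sub]
    congr 3
    ext J
    simp only [S, Finset.mem_filter, Finset.mem_powerset]
    tauto
  rw [e]
  exact key S (Finset.Subset.refl _)

/-- use `HK_top` -/
theorem PolyM_top (Γ : ℕ → Subgroup G) (hΓ : Filt Γ) (F : List A → G) (hF : F ∈ PolyM (A := A) Γ)
    (n : ℕ) (h1 : ∀ w : List A, w.length < n → F w = 1) (x : List A) (hx : x.length = n) :
    F x ∈ Γ n := by
  have h2 := HK_top Γ hΓ x.length (fun ω : Finset ℕ => F (sub x ω)) (hF x) (by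
    intro ω hω
    exact h1 _ (by rw [← hx]; exact sub_length_lt x ω hω))
  rw [← hx]
  simpa [sub_range] using h2

/-- For every `n` there is a map `T`, which only depends on the subword counts of length less
than `n` modulo `N` (`N` an exponent of the group), such that `T⁻¹ * φ` is polynomial and trivial
on all words of length less than `n`. Induction on `n`: multiply `T` by the product of the
`(F u)^(C w u)` over all words `u` of length `n`, where `F = T⁻¹ * φ`. -/
theorem taylor [Finite A] (Γ : ℕ → Subgroup G) (hΓ : Filt Γ) (f : A → G) (N : ℕ)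
    (hN : ∀ g : G, g ^ N = 1) (n : ℕ) :
    ∃ T : List A → G, T ∈ PolyM (A := A) Γ ∧
      (∀ w w' : List A, (∀ u : List A, u.length < n → ((C w u : ℤ) : ZMod N) = ((C w' u : ℤ) : ZMod N)) →
        T w = T w') ∧
      (∀ w : List A, w.length < n → T w = (w.map f).prod) := by
  classical
  induction n with
  | zero => exact ⟨1, one_mem _, fun _ _ _ => rfl, fun w hw => by omega⟩
  | succ n ih =>
    obtain ⟨T, hT, hdet, hval⟩ := ih
    let F : List A → G := fun w => (T w)⁻¹ * (w.map f).prod
    have hF : F ∈ PolyM (A := A) Γ := mul_mem (inv_mem hT) (hom_mem Γ hΓ f)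
    have hF1 : ∀ w : List A, w.length < n → F w = 1 := by
      intro w hw
      show (T w)⁻¹ * (w.map f).prod = 1
      rw [hval w hw, inv_mul_cancel]
    have hFn : ∀ u : List A, u.length = n → F u ∈ Γ n := fun u hu =>
      PolyM_top Γ hΓ F hF n hF1 u hu
    have hfin : {u : List A | u.length = n}.Finite := List.finite_length_eq A n
    let U : List (List A) := hfin.toFinset.toList
    have hU : ∀ u, u ∈ U ↔ u.length = n := by
      intro u; simp [U]
    have hUd : U.Nodup := Finset.nodup_toList _
    -- the product of the powers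
    let P : List (List A) → List A → G := fun l w => (l.map (fun u => F u ^ (C w u))).prod
    have hP : ∀ l : List (List A), (∀ u ∈ l, u.length = n) → P l ∈ PolyM (A := A) Γ := by
      intro l
      induction l with
      | nil => intro _; exact one_mem (PolyM (A := A) Γ)
      | cons u l ihl =>
        intro hl
        have h1 : (fun w : List A => F u ^ (C w u)) ∈ PolyM (A := A) Γ :=
          pow_mem Γ hΓ u (F u) (by rw [hl u (by simp)]; exact hFn u (hl u (by simp)))
        exact mul_mem h1 (ihl (fun v hv => hl v (by simp [hv])))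
    refine ⟨fun w => T w * P U w, mul_mem hT (hP U (fun u hu => (hU u).1 hu)), ?_, ?_⟩
    · intro w w' h
      show T w * P U w = T w' * P U w'
      rw [hdet w w' (fun u hu => h u (by omega))]
      congr 1
      show (U.map (fun u => F u ^ (C w u))).prod = (U.map (fun u => F u ^ (C w' u))).prod
      congr 1
      apply List.map_congr_left
      intro u hu
      have h1 := h u (by rw [(hU u).1 hu]; omega)
      rw [ZMod.intCast_eq_intCast_iff] at h1
      obtain ⟨k, hk⟩ := h1.dvd
      have h2 : C w' u = C w u + N * k := by rw [← hk]; ring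
      rw [h2, zpow_add, zpow_mul, zpow_natCast, hN, one_zpow, mul_one]
    · intro w hw
      show T w * P U w = (w.map f).prod
      rcases Nat.lt_or_ge w.length n with h | h
      · have h1 : P U w = 1 := by
          apply List.prod_eq_one
          intro x hx
          rw [List.mem_map] at hx
          obtain ⟨u, hu, rfl⟩ := hx
          rw [C_eq_zero_of_length w u (by rw [(hU u).1 hu]; exact h), zpow_zero]
        rw [h1, mul_one, hval w h]
      · have hwn : w.length = n := by omega
        have h1 : P U w = F w := by
          show (U.map (fun u => F u ^ (C w u))).prod = F w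
          have h2 : ∀ l : List (List A), l.Nodup → (∀ u ∈ l, u.length = n) →
              (l.map (fun u => F u ^ (C w u))).prod = if w ∈ l then F w else 1 := by
            intro l
            induction l with
            | nil => intro _ _; simp
            | cons u l ihl =>
              intro hnd hl
              rw [List.nodup_cons] at hnd
              rw [List.map_cons, List.prod_cons, ihl hnd.2 (fun v hv => hl v (by simp [hv])),
                C_same_length w u (by rw [hl u (by simp), hwn])]
              by_cases e : w = u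
              · subst e
                simp [hnd.1]
              · simp [e]
          rw [h2 U hUd (fun u hu => (hU u).1 hu), if_pos ((hU w).2 hwn)]
        rw [h1]
        show T w * ((T w)⁻¹ * (w.map f).prod) = _
        rw [mul_inv_cancel_left]

/-- Conclusion: with `Γ (c + 1) = ⊥` the map `T` for `n = c + 1` is equal to `φ`. -/
theorem poly_det [Finite A] (Γ : ℕ → Subgroup G) (hΓ : Filt Γ) (c : ℕ) (hc : Γ (c + 1) = ⊥)
    (f : A → G) (N : ℕ) (hN : ∀ g : G, g ^ N = 1) (w w' : List A)
    (h : ∀ u : List A, u.length ≤ c → ((C w u : ℤ) : ZMod N) = ((C w' u : ℤ) : ZMod N)) :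
    (w.map f).prod = (w'.map f).prod := by
  obtain ⟨T, hT, hdet, hval⟩ := taylor Γ hΓ f N hN (c + 1)
  have key : ∀ n : ℕ, ∀ w : List A, w.length = n → (T w)⁻¹ * (w.map f).prod = 1 := by
    intro n
    induction n using Nat.strong_induction_on with
    | _ n ih =>
      intro w hw
      rcases Nat.lt_or_ge n (c + 1) with h1 | h1
      · rw [hval w (by omega), inv_mul_cancel]
      · have h2 : (fun w : List A => (T w)⁻¹ * (w.map f).prod) ∈ PolyM (A := A) Γ :=
          mul_mem (inv_mem hT) (hom_mem Γ hΓ f)
        have h3 := PolyM_top Γ hΓ _ h2 n (fun v hv => ih v.length hv v rfl) w hw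
        have h4 : (T w)⁻¹ * (w.map f).prod ∈ Γ (c + 1) := hΓ.anti h1 h3
        rwa [hc, Subgroup.mem_bot] at h4
  have h1 : ∀ w : List A, T w = (w.map f).prod := fun w => (inv_mul_eq_one.1 (key _ w rfl))
  rw [← h1, ← h1]
  exact hdet w w' (fun u hu => h u (by omega))

end Pool.Agent.NIL
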