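import Pool.Agent.NIL.Defs

/-!
# The block automaton
-/

set_option autoImplicit false

namespace Pool.Agent.NIL

open Pool.Agent.GSH

variable {A : Type}

section

variable (q t k : ℕ) [NeZero q] (E β : A → Prop)

theorem bstep_neutral (s : Fin q × Bool) (a : A) (ha : ¬ E a) :
    bstep q t k E β s a = s ∧ bdisp q t k E β s a = 0 := by
  constructor
  · unfold bstep; rw [if_neg ha]
  · unfold bdisp; rw [if_neg (fun h => ha h.1)]

theorem bdisp_abs (s : Fin q × Bool) (a : A) : |bdisp q t k E β s a| ≤ 1 := by
  unfold bdisp
  split_ifs <;> simp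

theorem bdisp_nonneg (s : Fin q × Bool) (a : A) : 0 ≤ bdisp q t k E β s a := by
  unfold bdisp
  split_ifs <;> simp

theorem bdisp_ne_zero (s : Fin q × Bool) (a : A) (h : bdisp q t k E β s a ≠ 0) :
    bstep q t k E β s a = (0, false) := by
  unfold bdisp at h
  split_ifs at h with hc
  · unfold bstep
    rw [if_pos hc.1, dif_neg hc.2.1]
  · exact absurd rfl h

theorem btot_nonneg (w : List A) (s : Fin q × Bool) :
    0 ≤ tot (bstep q t k E β) (bdisp q t k E β) s w := by
  induction w generalizing s with
  | nil => simp [tot]
  | cons a w ih =>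
    rw [tot]
    have h1 := bdisp_nonneg q t k E β s a
    have h2 := ih (bstep q t k E β s a)
    linarith

theorem foldl_of_nE_zero (w : List A) (s : Fin q × Bool) (h : nE E w = 0) :
    List.foldl (bstep q t k E β) s w = s := by
  induction w generalizing s with
  | nil => rfl
  | cons a w ih =>
    rw [nE_cons] at h
    by_cases ha : E a
    · rw [if_pos ha] at h; omega
    · rw [if_neg ha, add_zero] at h
      rw [List.foldl_cons, (bstep_neutral q t k E β s a ha).1]
      exact ih s h

/-- the position component counts the letters of `E` modulo `q` -/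
theorem bpos (s : Fin q × Bool) (w : List A) :
    (List.foldl (bstep q t k E β) s w).1.val = (s.1.val + nE E w) % q := by
  induction w generalizing s with
  | nil => simp [nE_nil, Nat.mod_eq_of_lt s.1.isLt]
  | cons a w ih =>
    rw [List.foldl_cons, ih, nE_cons]
    by_cases ha : E a
    · rw [if_pos ha]
      by_cases h : s.1.val + 1 < q
      · have e : (bstep q t k E β s a).1.val = s.1.val + 1 := by
          unfold bstep; rw [if_pos ha, dif_pos h]
        rw [e]; congr 1; omega
      · have e : (bstep q t k E β s a).1.val = 0 := by
          unfold bstep; rw [if_pos ha, dif_neg h]; rfl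
        have hq : s.1.val + 1 = q := by have := s.1.isLt; omega
        rw [e]
        have e2 : s.1.val + (nE E w + 1) = 0 + nE E w + q := by omega
        rw [e2, Nat.add_mod_right]
    · rw [if_neg ha, add_zero, (bstep_neutral q t k E β s a ha).1]

/-- started in `(0, false)`, the automaton is at position `0` only in the state `(0, false)` -/
theorem bstate_zero (w : List A) :
    List.foldl (bstep q t k E β) ((0 : Fin q), false) w = ((0 : Fin q), false) ↔
      nE E w % q = 0 := by
  have hinv : ∀ (w : List A) (s : Fin q × Bool), (s.1.val = 0 → s.2 = false) →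
      ((List.foldl (bstep q t k E β) s w).1.val = 0 →
        (List.foldl (bstep q t k E β) s w).2 = false) := by
    intro w
    induction w with
    | nil => intro s hs; exact hs
    | cons a w ih =>
      intro s hs
      rw [List.foldl_cons]
      apply ih
      by_cases ha : E a
      · by_cases h : s.1.val + 1 < q
        · have e : (bstep q t k E β s a).1.val = s.1.val + 1 := by
            unfold bstep; rw [if_pos ha, dif_pos h]
          intro h0
          rw [e] at h0
          omega
        · have e : (bstep q t k E β s a) = (0, false) := by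
            unfold bstep; rw [if_pos ha, dif_neg h]
          intro _
          rw [e]
      · rw [(bstep_neutral q t k E β s a ha).1]
        exact hs
  have hpos := bpos q t k E β ((0 : Fin q), false) w
  have hi := hinv w ((0 : Fin q), false) (fun _ => rfl)
  have h00 : ((0 : Fin q), false).1.val = 0 := rfl
  rw [h00, zero_add] at hpos
  constructor
  · intro h
    rw [h] at hpos
    exact hpos.symm
  · intro h
    rw [h] at hpos
    have h2 := hi hpos
    refine Prod.ext (Fin.ext ?_) h2
    rw [hpos]; rfl

/-- a false flag after position `t` costs one displacement at the end of the block -/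
theorem btot_flag (i : Fin q) (hi : t < i.val) (w : List A) (hw : q - i.val ≤ nE E w) :
    1 ≤ tot (bstep q t k E β) (bdisp q t k E β) (i, false) w := by
  induction w generalizing i with
  | nil =>
    have := i.isLt
    rw [nE_nil] at hw
    omega
  | cons a w ih =>
    have hnn : ∀ (w : List A) (s : Fin q × Bool),
        0 ≤ tot (bstep q t k E β) (bdisp q t k E β) s w := btot_nonneg q t k E β
    rw [nE_cons] at hw
    unfold tot
    by_cases ha : E a
    · rw [if_pos ha] at hw
      by_cases h : i.val + 1 < q
      · have hf : bflag t k β i.val false a = false := by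
          unfold bflag
          rw [if_neg (by omega)]
          split_ifs <;> simp
        have e : bstep q t k E β (i, false) a = (⟨i.val + 1, h⟩, false) := by
          unfold bstep
          rw [if_pos ha, dif_pos h]
          simp only [hf]
        have h1 := ih ⟨i.val + 1, h⟩ (by simp only; omega) (by simp only; omega)
        have h2 := bdisp_nonneg q t k E β (i, false) a
        rw [e]
        linarith
      · have hf : bflag t k β i.val false a = false := by
          unfold bflag
          rw [if_neg (by omega)]
          split_ifs <;> simp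
        have e : bdisp q t k E β (i, false) a = 1 := by
          unfold bdisp
          rw [if_pos ⟨ha, h, hf⟩]
        have h1 := hnn w (bstep q t k E β (i, false) a)
        rw [e]
        linarith
    · rw [if_neg ha] at hw
      rw [(bstep_neutral q t k E β (i, false) a ha).1]
      have h1 := ih i hi hw
      have h2 := bdisp_nonneg q t k E β (i, false) a
      linarith

/-- the state after at least `q` letters of `E` does not depend on the initial flag -/
theorem bstate_forget (i : Fin q) (f f' : Bool) (w : List A) (hw : q ≤ nE E w) :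
    List.foldl (bstep q t k E β) (i, f) w = List.foldl (bstep q t k E β) (i, f') w := by
  have main : ∀ (w : List A) (i : Fin q) (f f' : Bool), q - i.val ≤ nE E w →
      List.foldl (bstep q t k E β) (i, f) w = List.foldl (bstep q t k E β) (i, f') w := by
    intro w
    induction w with
    | nil =>
      intro i f f' hw
      have := i.isLt
      rw [nE_nil] at hw
      omega
    | cons a w ih =>
      intro i f f' hw
      rw [nE_cons] at hw
      rw [List.foldl_cons, List.foldl_cons]
      by_cases ha : E a
      · rw [if_pos ha] at hw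
        by_cases h : i.val + 1 < q
        · have e : ∀ g : Bool, bstep q t k E β (i, g) a =
              (⟨i.val + 1, h⟩, bflag t k β i.val g a) := by
            intro g
            unfold bstep
            rw [if_pos ha, dif_pos h]
          rw [e, e]
          exact ih _ _ _ (by simp only; omega)
        · have e : ∀ g : Bool, bstep q t k E β (i, g) a = (0, false) := by
            intro g
            unfold bstep
            rw [if_pos ha, dif_neg h]
          rw [e, e]
      · rw [if_neg ha] at hw
        rw [(bstep_neutral q t k E β (i, f) a ha).1, (bstep_neutral q t k E β (i, f') a ha).1]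
        exact ih i f f' hw
  exact main w i f f' (by omega)

end

theorem nE_rep (E : A → Prop) (n : ℕ) (w : List A) : nE E (rep n w) = n * nE E w := by
  induction n with
  | zero => simp [rep_zero, nE_nil]
  | succ n ih => rw [rep_succ, nE_append, ih]; ring

/-- the letter of `E` with index `e` -/
theorem exists_letter (E : A → Prop) (w : List A) (e : ℕ) (he : e < nE E w) :
    ∃ u a v, w = u ++ a :: v ∧ E a ∧ nE E u = e := by
  induction w generalizing e with
  | nil => rw [nE_nil] at he; omega
  | cons b w ih =>
    rw [nE_cons] at he
    by_cases hb : E b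
    · rw [if_pos hb] at he
      rcases Nat.eq_zero_or_pos e with h0 | h0
      · exact ⟨[], b, w, rfl, hb, by rw [nE_nil, h0]⟩
      · obtain ⟨u, a, v, h1, h2, h3⟩ := ih (e - 1) (by omega)
        refine ⟨b :: u, a, v, by rw [h1]; rfl, h2, ?_⟩
        rw [nE_cons, if_pos hb, h3]
        omega
    · rw [if_neg hb, add_zero] at he
      obtain ⟨u, a, v, h1, h2, h3⟩ := ih e he
      refine ⟨b :: u, a, v, by rw [h1]; rfl, h2, ?_⟩
      rw [nE_cons, if_neg hb, h3, add_zero]

/-- Letters read at the positions `t` and `t + k` of a block, when no displacement occurs. -/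
theorem bzero_letters (q t k : ℕ) [NeZero q] (E β : A → Prop) (hk : 0 < k) (ht : t + k < q)
    (s : Fin q × Bool) (u v : List A) (a : A) (ha : E a) (hv : q ≤ nE E v)
    (h0 : tot (bstep q t k E β) (bdisp q t k E β) s (u ++ a :: v) = 0) :
    ((s.1.val + nE E u) % q = t → β a) ∧ ((s.1.val + nE E u) % q = t + k → ¬ β a) := by
  have hnn := btot_nonneg q t k E β
  rw [tot_append] at h0
  set s1 := List.foldl (bstep q t k E β) s u with hs1
  have hp : s1.1.val = (s.1.val + nE E u) % q := bpos q t k E β s u
  rw [tot] at h0
  have n1 := hnn u s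
  have n2 := bdisp_nonneg q t k E β s1 a
  have n3 := hnn v (bstep q t k E β s1 a)
  have z2 : bdisp q t k E β s1 a = 0 := by linarith
  have z3 : tot (bstep q t k E β) (bdisp q t k E β) (bstep q t k E β s1 a) v = 0 := by linarith
  rw [← hp]
  constructor
  · intro hj
    by_contra hb
    have h1 : s1.1.val + 1 < q := by omega
    have hf : bflag t k β s1.1.val s1.2 a = false := by
      unfold bflag
      rw [if_pos hj]
      simpa using hb
    have e : bstep q t k E β s1 a = (⟨s1.1.val + 1, h1⟩, false) := by
      unfold bstep
      rw [if_pos ha, dif_pos h1, hf]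
    rw [e] at z3
    have := btot_flag q t k E β ⟨s1.1.val + 1, h1⟩ (by simp only; omega) v (by simp only; omega)
    linarith
  · intro hj hb
    have hf : bflag t k β s1.1.val s1.2 a = false := by
      unfold bflag
      rw [if_neg (by omega), if_pos hj]
      simp [hb]
    by_cases h1 : s1.1.val + 1 < q
    · have e : bstep q t k E β s1 a = (⟨s1.1.val + 1, h1⟩, false) := by
        unfold bstep
        rw [if_pos ha, dif_pos h1, hf]
      rw [e] at z3
      have := btot_flag q t k E β ⟨s1.1.val + 1, h1⟩ (by simp only; omega) v
        (by simp only; omega)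
      linarith
    · have e : bdisp q t k E β s1 a = 1 := by
        unfold bdisp
        rw [if_pos ⟨ha, h1, hf⟩]
      linarith

/-- Hypothesis `h3` of the walk lemma for the block automaton, `q` a prime power, `k = q / p`. -/
theorem blk_h3 (p r q t k : ℕ) [NeZero q] (E β : A → Prop) (hp : p.Prime) (hq : q = p ^ (r + 1))
    (hk : k = p ^ r) (ht : t + k < q) (s : Fin q × Bool) (w : List A)
    (hB : ∃ B : ℤ, ∀ n, |tot (bstep q t k E β) (bdisp q t k E β) s (rep n w)| ≤ B) :
    ∃ n, List.foldl (bstep q t k E β) s (rep (n + 1) w) =
      List.foldl (bstep q t k E β) s (rep n w) := by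
  have hqpos : 0 < q := Nat.pos_of_ne_zero (NeZero.ne q)
  have hkpos : 0 < k := by rw [hk]; exact pow_pos hp.pos r
  have hnn := btot_nonneg q t k E β
  obtain ⟨B, hB⟩ := hB
  -- the total is eventually constant
  obtain ⟨N, hN⟩ : ∃ N, ∀ m, tot (bstep q t k E β) (bdisp q t k E β)
      (List.foldl (bstep q t k E β) s (rep N w)) (rep m w) = 0 := by
    have hmono : Monotone (fun n => (tot (bstep q t k E β) (bdisp q t k E β) s (rep n w)).toNat) := by
      apply monotone_nat_of_le_succ
      intro n
      rw [rep_succ', tot_append]
      have h1 := hnn w (List.foldl (bstep q t k E β) s (rep n w))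
      exact Int.toNat_le_toNat (by linarith)
    have hbd : ∀ n, (tot (bstep q t k E β) (bdisp q t k E β) s (rep n w)).toNat ≤ B.toNat := by
      intro n
      exact Int.toNat_le_toNat (le_trans (le_abs_self _) (hB n))
    obtain ⟨N, hN⟩ := eventually_const hmono hbd
    refine ⟨N, fun m => ?_⟩
    have h5 := hN (N + m) (by omega)
    simp only [rep_add, tot_append] at h5
    have h6 := hnn (rep N w) s
    have h7 := hnn (rep m w) (List.foldl (bstep q t k E β) s (rep N w))
    omega
  set s' := List.foldl (bstep q t k E β) s (rep N w) with hs'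
  by_cases hl0 : nE E w = 0
  · refine ⟨0, ?_⟩
    rw [zero_add, rep_one, rep_zero, List.foldl_nil]
    exact foldl_of_nE_zero q t k E β w s hl0
  by_cases hdiv : q ∣ nE E w
  · refine ⟨q, ?_⟩
    rw [rep_succ, List.foldl_append]
    have hpos := bpos q t k E β s w
    have hpos2 : (List.foldl (bstep q t k E β) s w).1 = s.1 := by
      apply Fin.ext
      rw [hpos]
      obtain ⟨c, hc⟩ := hdiv
      rw [hc, Nat.add_mul_mod_self_left, Nat.mod_eq_of_lt s.1.isLt]
    have e1 : List.foldl (bstep q t k E β) s w =
        (s.1, (List.foldl (bstep q t k E β) s w).2) := Prod.ext hpos2 rfl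
    rw [e1]
    refine bstate_forget q t k E β s.1 _ s.2 (rep q w) ?_
    rw [nE_rep]
    exact Nat.le_mul_of_pos_right q (Nat.pos_of_ne_zero hl0)
  · exfalso
    obtain ⟨l, hl⟩ : ∃ l, l = nE E w := ⟨_, rfl⟩
    rw [← hl] at hl0 hdiv
    have hlpos : 0 < l := Nat.pos_of_ne_zero hl0
    -- gcd
    have hg : Nat.gcd q l ∣ k := by
      have h1 : Nat.gcd q l ∣ p ^ (r + 1) := by rw [← hq]; exact Nat.gcd_dvd_left q l
      obtain ⟨j, hj, hje⟩ := (Nat.dvd_prime_pow hp).1 h1
      have hjr : j ≤ r := by
        by_contra hcon
        have : j = r + 1 := by omega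
        rw [this, ← hq] at hje
        exact hdiv (by rw [← hje]; exact Nat.gcd_dvd_right q l)
      rw [hje, hk]
      exact pow_dvd_pow p hjr
    have hglt : Nat.gcd q l < q := by
      refine lt_of_le_of_ne (Nat.gcd_le_left l hqpos) ?_
      intro h
      exact hdiv (by rw [← h]; exact Nat.gcd_dvd_right q l)
    obtain ⟨m1, hm1⟩ : ∃ m, l * m % q = Nat.gcd q l := by
      obtain ⟨m, -, hm⟩ := Nat.exists_mul_mod_eq_gcd (n := l) (k := q)
        (by rw [Nat.gcd_comm]; exact hglt)
      exact ⟨m, by rw [hm, Nat.gcd_comm]⟩
    obtain ⟨c, hc⟩ := hg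
    obtain ⟨n1, hn1⟩ : ∃ n1, n1 = m1 * c := ⟨_, rfl⟩
    have hn1l : (n1 * l) % q = k := by
      have e : n1 * l = (l * m1) * c := by rw [hn1]; ring
      rw [e, Nat.mul_mod, hm1, hc]
      have hkq : k < q := by omega
      rw [Nat.mul_mod, Nat.mod_mod] 
      rw [← Nat.mul_mod, ← hc]
      exact Nat.mod_eq_of_lt hkq
    -- the letter
    obtain ⟨x, hx⟩ : ∃ x, (s'.1.val + x) % q = t := by
      refine ⟨t + (q - s'.1.val), ?_⟩
      have := s'.1.isLt
      have e : s'.1.val + (t + (q - s'.1.val)) = t + q := by omega
      rw [e, Nat.add_mod_right, Nat.mod_eq_of_lt (by omega)]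
    obtain ⟨u, a, v, huv, ha, hu⟩ := exists_letter E w (x % l) (by rw [← hl]; exact Nat.mod_lt x hlpos)
    have hcopy : ∀ m : ℕ, q ≤ nE E (v ++ rep q w) ∧
        tot (bstep q t k E β) (bdisp q t k E β) s' ((rep m w ++ u) ++ a :: (v ++ rep q w)) = 0 := by
      intro m
      constructor
      · rw [nE_append, nE_rep, ← hl]
        have := Nat.le_mul_of_pos_right q hlpos
        omega
      · have e : (rep m w ++ u) ++ a :: (v ++ rep q w) = rep (m + (q + 1)) w := by
          have e0 : ∀ z : List A, w ++ z = u ++ a :: (v ++ z) := by
            intro z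
            rw [huv]
            simp
          rw [rep_add, rep_succ, e0, List.append_assoc]
        rw [e]
        exact hN _
    have hpos : ∀ m : ℕ, nE E (rep m w ++ u) = m * l + x % l := by
      intro m
      rw [nE_append, nE_rep, hu, ← hl]
    obtain ⟨hv1, ht1⟩ := hcopy (x / l)
    obtain ⟨hv2, ht2⟩ := hcopy (x / l + n1)
    have r1 := (bzero_letters q t k E β hkpos ht s' (rep (x / l) w ++ u) (v ++ rep q w) a ha hv1
      ht1).1
    have r2 := (bzero_letters q t k E β hkpos ht s' (rep (x / l + n1) w ++ u) (v ++ rep q w) a ha
      hv2 ht2).2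
    rw [hpos] at r1 r2
    have ex : x / l * l + x % l = x := Nat.div_add_mod' x l
    rw [ex] at r1
    have hb := r1 hx
    refine r2 ?_ hb
    have e2 : s'.1.val + ((x / l + n1) * l + x % l) = (s'.1.val + x) + n1 * l := by
      have : (x / l + n1) * l = x / l * l + n1 * l := by ring
      omega
    rw [e2, Nat.add_mod, hx, hn1l, Nat.mod_eq_of_lt ht]

end Pool.Agent.NIL
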