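import Pool.Agent.NIL.Defs

/-!
# Algebra of prefix sums `IS`
-/

set_option autoImplicit false

namespace Pool.Agent.NIL

open Pool.Agent.GSH

variable {A : Type}

/-- characterisation of `IS` by its recursion -/
theorem IS_unique (E : A → Prop) (F g : List A → ℤ) (h0 : g [] = 0)
    (h1 : ∀ w a, E a → g (w ++ [a]) = g w + F w) (h2 : ∀ w a, ¬ E a → g (w ++ [a]) = g w)
    (w : List A) : IS E F w = g w := by
  induction w using List.reverseRecOn with
  | nil => rw [IS_nil, h0]
  | append_singleton w a ih =>
    rw [IS_append_singleton, ih]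
    by_cases h : E a
    · rw [if_pos h, h1 w a h]
    · rw [if_neg h, h2 w a h, add_zero]

theorem IS_congr {E : A → Prop} {F G : List A → ℤ} (h : ∀ v, F v = G v) (w : List A) :
    IS E F w = IS E G w := by
  rw [show F = G from funext h]

theorem IS_congr_pred {E E' : A → Prop} (F : List A → ℤ) (h : ∀ a, E a ↔ E' a) (w : List A) :
    IS E F w = IS E' F w := by
  rw [show E = E' from funext fun a => propext (h a)]

theorem IS_add (E : A → Prop) (F G : List A → ℤ) (w : List A) :
    IS E (fun v => F v + G v) w = IS E F w + IS E G w := by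
  refine IS_unique E _ (fun w => IS E F w + IS E G w) (by simp [IS_nil]) ?_ ?_ w
  · intro w a h
    simp only [IS_append_singleton, if_pos h]
    ring
  · intro w a h
    simp only [IS_append_singleton, if_neg h, add_zero]

theorem IS_sub (E : A → Prop) (F G : List A → ℤ) (w : List A) :
    IS E (fun v => F v - G v) w = IS E F w - IS E G w := by
  refine IS_unique E _ (fun w => IS E F w - IS E G w) (by simp [IS_nil]) ?_ ?_ w
  · intro w a h
    simp only [IS_append_singleton, if_pos h]
    ring
  · intro w a h
    simp only [IS_append_singleton, if_neg h, add_zero]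

theorem IS_const_mul (E : A → Prop) (k : ℤ) (F : List A → ℤ) (w : List A) :
    IS E (fun v => k * F v) w = k * IS E F w := by
  refine IS_unique E _ (fun w => k * IS E F w) (by simp [IS_nil]) ?_ ?_ w
  · intro w a h
    simp only [IS_append_singleton, if_pos h]
    ring
  · intro w a h
    simp only [IS_append_singleton, if_neg h, add_zero]

theorem IS_zero (E : A → Prop) (w : List A) : IS E (fun _ => 0) w = 0 := by
  refine IS_unique E _ (fun _ => 0) rfl ?_ ?_ w
  · intro w a h
    simp
  · intro w a h
    rfl

theorem IS_sum {ι : Type*} (E : A → Prop) (s : Finset ι) (F : ι → List A → ℤ) (w : List A) :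
    IS E (fun v => ∑ i ∈ s, F i v) w = ∑ i ∈ s, IS E (F i) w := by
  refine IS_unique E _ (fun w => ∑ i ∈ s, IS E (F i) w) (by simp [IS_nil]) ?_ ?_ w
  · intro w a h
    simp only [IS_append_singleton, if_pos h, Finset.sum_add_distrib]
  · intro w a h
    simp only [IS_append_singleton, if_neg h, add_zero]

theorem IS_union (E E' : A → Prop) (h : ∀ a, E a → ¬ E' a) (F : List A → ℤ) (w : List A) :
    IS (fun a => E a ∨ E' a) F w = IS E F w + IS E' F w := by
  refine IS_unique _ _ (fun w => IS E F w + IS E' F w) (by simp [IS_nil]) ?_ ?_ w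
  · intro w a ha
    by_cases h1 : E a
    · simp only [IS_append_singleton, if_pos h1, if_neg (h a h1)]
      ring
    · have h2 : E' a := ha.resolve_left h1
      simp only [IS_append_singleton, if_neg h1, if_pos h2]
      ring
  · intro w a ha
    rw [not_or] at ha
    simp only [IS_append_singleton, if_neg ha.1, if_neg ha.2, add_zero]

/-- reduction modulo `m` -/
theorem IS_cast_congr (E : A → Prop) (m : ℕ) {F G : List A → ℤ}
    (h : ∀ v, ((F v : ℤ) : ZMod m) = ((G v : ℤ) : ZMod m)) (w : List A) :
    ((IS E F w : ℤ) : ZMod m) = ((IS E G w : ℤ) : ZMod m) := by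
  induction w using List.reverseRecOn with
  | nil => rw [IS_nil, IS_nil]
  | append_singleton w a ih =>
    rw [IS_append_singleton, IS_append_singleton, Int.cast_add, Int.cast_add, ih]
    by_cases ha : E a
    · rw [if_pos ha, if_pos ha, h]
    · rw [if_neg ha, if_neg ha]

end Pool.Agent.NIL
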