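import Pool.Agent.NIL.Defs

/-!
# Algebra of `MZ`
-/

set_option autoImplicit false

namespace Pool.Agent.NIL

open Pool.Agent.GSH

variable {A : Type} {f g : List A → ℤ}

theorem MZ.congr (h : ∀ w, f w = g w) (hf : MZ f) : MZ g := by
  have e : f = g := funext h
  rw [← e]
  exact hf

theorem MZ.const (k : ℤ) : MZ (fun _ : List A => k) :=
  fun _ _ => Meas.const 1 _

theorem MZ.add (hf : MZ f) (hg : MZ g) : MZ (fun w => f w + g w) := by
  intro m hm
  have : NeZero m := ⟨hm.ne'⟩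
  have h := (hf m hm).comp₂ (hg m hm) (fun x y => x + y)
  simpa only [Int.cast_add] using h

theorem MZ.sub (hf : MZ f) (hg : MZ g) : MZ (fun w => f w - g w) := by
  intro m hm
  have : NeZero m := ⟨hm.ne'⟩
  have h := (hf m hm).comp₂ (hg m hm) (fun x y => x - y)
  simpa only [Int.cast_sub] using h

theorem MZ.neg (hf : MZ f) : MZ (fun w => - f w) := by
  intro m hm
  have : NeZero m := ⟨hm.ne'⟩
  have h := (hf m hm).comp (fun x => -x)
  simpa only [Int.cast_neg] using h

theorem MZ.mul (hf : MZ f) (hg : MZ g) : MZ (fun w => f w * g w) := by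
  intro m hm
  have : NeZero m := ⟨hm.ne'⟩
  have h := (hf m hm).comp₂ (hg m hm) (fun x y => x * y)
  simpa only [Int.cast_mul] using h

theorem MZ.smul (k : ℤ) (hf : MZ f) : MZ (fun w => k * f w) :=
  (MZ.const k).mul hf

theorem MZ.sum {ι : Type*} (s : Finset ι) (F : ι → List A → ℤ) (h : ∀ i ∈ s, MZ (F i)) :
    MZ (fun w => ∑ i ∈ s, F i w) := by
  intro m hm
  have : NeZero m := ⟨hm.ne'⟩
  have := Meas.sum (n := 1) (f := fun i w => ((F i w : ℤ) : ZMod m)) s (fun i hi => h i hi m hm)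
  simpa only [Int.cast_sum] using this

/-- `MZ` is saturated: use the modulus `|k| * m`. -/
theorem MZ.div (k : ℤ) (hk : k ≠ 0) (h : MZ (fun w => k * f w)) : MZ f := by
  intro m hm
  have hn : 0 < k.natAbs * m := Nat.mul_pos (Int.natAbs_pos.mpr hk) hm
  have : NeZero (k.natAbs * m) := ⟨hn.ne'⟩
  refine (h (k.natAbs * m) hn).determined (fun w w' e => ?_)
  rw [ZMod.intCast_eq_intCast_iff_dvd_sub] at e ⊢
  have e1 : k * f w' - k * f w = k * (f w' - f w) := by ring
  rw [e1] at e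
  have e2 : (k * (m : ℤ)) ∣ k * (f w' - f w) := by
    refine dvd_trans ?_ e
    rw [Nat.cast_mul]
    exact mul_dvd_mul (Int.dvd_natAbs.mpr dvd_rfl) dvd_rfl
  exact (mul_dvd_mul_iff_left hk).mp e2

/-- It is enough to treat prime power moduli (Chinese remainder theorem). -/
theorem MZ.of_pow (h : ∀ p s : ℕ, p.Prime → Meas 1 (fun w => ((f w : ℤ) : ZMod (p ^ s)))) :
    MZ f := by
  intro m hm
  have hfin : ∀ p : m.primeFactors, NeZero ((p : ℕ) ^ (m.factorization p)) := fun p =>
    ⟨pow_ne_zero _ (Nat.prime_of_mem_primeFactors p.2).ne_zero⟩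
  have h1 : Meas 1 (fun (w : List A) (p : m.primeFactors) =>
      ((f w : ℤ) : ZMod ((p : ℕ) ^ (m.factorization p)))) :=
    Meas.pi (fun p => h p _ (Nat.prime_of_mem_primeFactors p.2))
  refine h1.determined (fun w w' e => ?_)
  rw [ZMod.intCast_eq_intCast_iff_dvd_sub]
  have e1 : ∀ p ∈ m.primeFactors, ((p ^ (m.factorization p) : ℕ) : ℤ) ∣ f w' - f w := by
    intro p hp
    have := congrFun e ⟨p, hp⟩
    exact (ZMod.intCast_eq_intCast_iff_dvd_sub _ _ _).mp this
  rw [Int.natCast_dvd, Nat.dvd_iff_prime_pow_dvd_dvd]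
  intro p k hp hk
  rcases Nat.eq_zero_or_pos k with rfl | hk0
  · simp
  · have hpm : p ∈ m.primeFactors := by
      rw [Nat.mem_primeFactors]
      exact ⟨hp, dvd_trans (dvd_pow_self p hk0.ne') hk, hm.ne'⟩
    have h2 := Int.natCast_dvd.mp (e1 p hpm)
    have h3 : k ≤ m.factorization p := (hp.pow_dvd_iff_le_factorization hm.ne').mp hk
    exact dvd_trans (pow_dvd_pow p h3) h2

theorem MZ.quotL (hf : MZ f) (y : List A) : MZ (fun w => f (y ++ w)) :=
  fun m hm x => (hf m hm x).quotL y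

theorem MZ.reverse (hf : MZ f) : MZ (fun w => f w.reverse) :=
  fun m hm x => (hf m hm x).reverse

end Pool.Agent.NIL
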