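import Pool.Agent.NIL.Walk
import Pool.Agent.NIL.MZAlg
import Pool.Agent.NIL.ISAlg
import Pool.Agent.NIL.BlkAuto

/-!
# Counting with the block automaton
-/

set_option autoImplicit false

namespace Pool.Agent.NIL

open Pool.Agent.GSH

variable {A : Type}

open Classical in
/-- Walk lemma for the block automaton, read at a neutral letter `c` (difference of the walk
lemma for `E' = E` and `E' = E ∪ {c}`). -/
theorem blk_ind [Finite A] (p r q t k : ℕ) [NeZero q] (E β : A → Prop) (hp : p.Prime)
    (hq : q = p ^ (r + 1)) (hk : k = p ^ r) (ht : t + k < q) (c : A) (hc : ¬ E c) (M : ℕ)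
    [NeZero M] (q0 : Fin q × Bool) (y0 : ZMod M) :
    MZ (IS (fun a => a = c) (fun u =>
      if List.foldl (bstep q t k E β) q0 u = ((0 : Fin q), false) ∧
        y0 + ((tot (bstep q t k E β) (bdisp q t k E β) q0 u : ℤ) : ZMod M) = 0 then 1 else 0)) := by
  have hkpos : 0 < k := by rw [hk]; exact pow_pos hp.pos r
  have hw : ∀ E' : A → Prop, (∀ a, E a → E' a) →
      MZ (IS E' (fun u =>
        if List.foldl (bstep q t k E β) q0 u = ((0 : Fin q), false) ∧
          y0 + ((tot (bstep q t k E β) (bdisp q t k E β) q0 u : ℤ) : ZMod M) = 0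
          then 1 else 0)) := fun E' hE' =>
    MZ.congr (fun w => IS_congr (fun u => by congr) w)
      (walk (bstep q t k E β) (bdisp q t k E β) ((0 : Fin q), false) E
      (fun s a ha => bstep_neutral q t k E β s a ha)
      (fun s a => bdisp_abs q t k E β s a)
      (fun s a h => bdisp_ne_zero q t k E β s a h)
      (fun s w hB => blk_h3 p r q t k E β hp hq hk ht s w hB)
      E' hE' M q0 y0)
  have h1 := hw E (fun a ha => ha)
  have h2 := hw (fun a => E a ∨ a = c) (fun a ha => Or.inl ha)
  refine MZ.congr (fun w => ?_) (MZ.sub h2 h1)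
  rw [IS_union E (fun a => a = c) (fun a ha hac => hc (hac ▸ ha))]
  ring

open Classical in
/-- the displacement itself (combine `blk_ind` for all `y0 : ZMod m`, `M = m`), after a fixed
word `y` -/
theorem blk_tot [Finite A] (p r q t k : ℕ) [NeZero q] (E β : A → Prop) (hp : p.Prime)
    (hq : q = p ^ (r + 1)) (hk : k = p ^ r) (ht : t + k < q) (c : A) (hc : ¬ E c)
    (y : List A) :
    MZ (IS (fun a => a = c) (fun u => if nE E (y ++ u) % q = 0 then
      tot (bstep q t k E β) (bdisp q t k E β) ((0 : Fin q), false) (y ++ u) else 0)) := by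
  intro m hm
  have : NeZero m := ⟨hm.ne'⟩
  obtain ⟨q0, hq0⟩ : ∃ q0, q0 = List.foldl (bstep q t k E β) ((0 : Fin q), false) y := ⟨_, rfl⟩
  obtain ⟨T0, hT0⟩ : ∃ T0, T0 = tot (bstep q t k E β) (bdisp q t k E β) ((0 : Fin q), false) y :=
    ⟨_, rfl⟩
  have hG : MZ (fun w => ∑ z : ZMod m, ((z.val : ℕ) : ℤ) *
      IS (fun a => a = c) (fun u =>
        if List.foldl (bstep q t k E β) q0 u = ((0 : Fin q), false) ∧
          (((T0 : ℤ) : ZMod m) - z) +
            ((tot (bstep q t k E β) (bdisp q t k E β) q0 u : ℤ) : ZMod m) = 0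
          then 1 else 0) w) :=
    MZ.sum Finset.univ _ fun z _ => MZ.smul _
      (blk_ind p r q t k E β hp hq hk ht c hc m q0 (((T0 : ℤ) : ZMod m) - z))
  have key : (fun w => ((IS (fun a => a = c) (fun u => if nE E (y ++ u) % q = 0 then
      tot (bstep q t k E β) (bdisp q t k E β) ((0 : Fin q), false) (y ++ u) else 0) w : ℤ) :
        ZMod m)) = (fun w => ((∑ z : ZMod m, ((z.val : ℕ) : ℤ) *
      IS (fun a => a = c) (fun u =>
        if List.foldl (bstep q t k E β) q0 u = ((0 : Fin q), false) ∧
          (((T0 : ℤ) : ZMod m) - z) +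
            ((tot (bstep q t k E β) (bdisp q t k E β) q0 u : ℤ) : ZMod m) = 0
          then 1 else 0) w : ℤ) : ZMod m)) := by
    funext w
    have e1 : (∑ z : ZMod m, ((z.val : ℕ) : ℤ) *
      IS (fun a => a = c) (fun u =>
        if List.foldl (bstep q t k E β) q0 u = ((0 : Fin q), false) ∧
          (((T0 : ℤ) : ZMod m) - z) +
            ((tot (bstep q t k E β) (bdisp q t k E β) q0 u : ℤ) : ZMod m) = 0
          then 1 else 0) w) =
      IS (fun a => a = c) (fun u => ∑ z : ZMod m, ((z.val : ℕ) : ℤ) *
        (if List.foldl (bstep q t k E β) q0 u = ((0 : Fin q), false) ∧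
          (((T0 : ℤ) : ZMod m) - z) +
            ((tot (bstep q t k E β) (bdisp q t k E β) q0 u : ℤ) : ZMod m) = 0
          then 1 else 0)) w := by
      rw [IS_sum]
      exact Finset.sum_congr rfl fun z _ => (IS_const_mul _ _ _ _).symm
    rw [e1]
    refine IS_cast_congr _ m (fun u => ?_) w
    have hst : nE E (y ++ u) % q = 0 ↔
        List.foldl (bstep q t k E β) q0 u = ((0 : Fin q), false) := by
      rw [← bstate_zero q t k E β (y ++ u), List.foldl_append, hq0]
    have htt : tot (bstep q t k E β) (bdisp q t k E β) ((0 : Fin q), false) (y ++ u) =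
        T0 + tot (bstep q t k E β) (bdisp q t k E β) q0 u := by
      rw [tot_append, hT0, hq0]
    by_cases h : List.foldl (bstep q t k E β) q0 u = ((0 : Fin q), false)
    · rw [if_pos (hst.mpr h), htt]
      push_cast
      rw [Finset.sum_eq_single (((T0 : ℤ) : ZMod m) +
        ((tot (bstep q t k E β) (bdisp q t k E β) q0 u : ℤ) : ZMod m))]
      · rw [if_pos ⟨h, by ring⟩, mul_one, ZMod.natCast_val, ZMod.cast_id]
      · intro z _ hz
        rw [if_neg, mul_zero]
        rintro ⟨-, h2⟩
        apply hz
        linear_combination -h2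
      · intro hh
        exact absurd (Finset.mem_univ _) hh
    · rw [if_neg (fun hh => h (hst.mp hh))]
      push_cast
      symm
      apply Finset.sum_eq_zero
      intro z _
      rw [if_neg (fun hh => h hh.1), mul_zero]
  rw [key]
  exact hG m hm

end Pool.Agent.NIL
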