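import Pool.Agent.NIL.ISAlg
import Pool.Agent.NIL.BlkAuto

/-!
# The difference of two block counts is a difference of letter counts
-/

set_option autoImplicit false

namespace Pool.Agent.NIL

open Pool.Agent.GSH

variable {A : Type}

open Classical in
/-- recursion for `PB` -/
theorem PB_append_singleton (q : ℕ) (E : A → Prop) (b : A) (j : ZMod q) (w : List A) (a : A) :
    PB q E b j (w ++ [a]) =
      PB q E b j w + if a = b ∧ ((nE E w : ℕ) : ZMod q) = j then 1 else 0 := by
  unfold PB
  rw [IS_append_singleton]
  by_cases h1 : a = b
  · by_cases h2 : ((nE E w : ℕ) : ZMod q) = j <;> simp [h1, h2]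
  · simp [h1]

/-- the value of a flag -/
private def fl (f : Bool) : ℤ := if f = true then 1 else 0

private theorem fl_true : fl true = 1 := rfl
private theorem fl_false : fl false = 0 := rfl

open Classical in
/-- the invariant -/
private theorem blk_inv (q t k : ℕ) [NeZero q] (E : A → Prop) (b : A) (hb : E b) (hk : 0 < k)
    (ht : t + k < q) (v : List A) :
    (List.foldl (bstep q t k E (fun a => a = b)) ((0 : Fin q), false) v).1.val = nE E v % q ∧
    (List.foldl (bstep q t k E (fun a => a ≠ b)) ((0 : Fin q), false) v).1.val = nE E v % q ∧
    (nE E v % q ≤ t →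
      tot (bstep q t k E (fun a => a = b)) (bdisp q t k E (fun a => a = b)) ((0 : Fin q), false) v -
      tot (bstep q t k E (fun a => a ≠ b)) (bdisp q t k E (fun a => a ≠ b))
        ((0 : Fin q), false) v =
      PB q E b ((t + k : ℕ) : ZMod q) v - PB q E b ((t : ℕ) : ZMod q) v) ∧
    (t < nE E v % q → nE E v % q ≤ t + k →
      (List.foldl (bstep q t k E (fun a => a ≠ b)) ((0 : Fin q), false) v).2 =
        !(List.foldl (bstep q t k E (fun a => a = b)) ((0 : Fin q), false) v).2 ∧
      tot (bstep q t k E (fun a => a = b)) (bdisp q t k E (fun a => a = b)) ((0 : Fin q), false) v -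
      tot (bstep q t k E (fun a => a ≠ b)) (bdisp q t k E (fun a => a ≠ b))
        ((0 : Fin q), false) v -
        fl (List.foldl (bstep q t k E (fun a => a = b)) ((0 : Fin q), false) v).2 =
      PB q E b ((t + k : ℕ) : ZMod q) v - PB q E b ((t : ℕ) : ZMod q) v) ∧
    (t + k < nE E v % q →
      tot (bstep q t k E (fun a => a = b)) (bdisp q t k E (fun a => a = b)) ((0 : Fin q), false) v -
      tot (bstep q t k E (fun a => a ≠ b)) (bdisp q t k E (fun a => a ≠ b))
        ((0 : Fin q), false) v +
        fl (List.foldl (bstep q t k E (fun a => a ≠ b)) ((0 : Fin q), false) v).2 -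
        fl (List.foldl (bstep q t k E (fun a => a = b)) ((0 : Fin q), false) v).2 =
      PB q E b ((t + k : ℕ) : ZMod q) v - PB q E b ((t : ℕ) : ZMod q) v) := by
  induction v using List.reverseRecOn with
  | nil =>
    have hq : 0 < q := Nat.pos_of_ne_zero (NeZero.ne q)
    refine ⟨by simp [nE_nil], by simp [nE_nil], ?_, ?_, ?_⟩
    · intro _
      simp [tot, PB, IS_nil]
    · intro h
      simp [nE_nil] at h
    · intro h
      simp [nE_nil] at h
  | append_singleton v a ih =>
    obtain ⟨h1, h2, h3, h4, h5⟩ := ih
    rw [List.foldl_append, List.foldl_append, tot_append, tot_append, PB_append_singleton,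
      PB_append_singleton, nE_append, nE_singleton]
    have hm1 : ((nE E v : ℕ) : ZMod q) = ((t + k : ℕ) : ZMod q) ↔ nE E v % q = t + k := by
      rw [ZMod.natCast_eq_natCast_iff', Nat.mod_eq_of_lt ht]
    have hm2 : ((nE E v : ℕ) : ZMod q) = ((t : ℕ) : ZMod q) ↔ nE E v % q = t := by
      rw [ZMod.natCast_eq_natCast_iff', Nat.mod_eq_of_lt (show t < q by omega)]
    simp only [hm1, hm2]
    generalize hs : List.foldl (bstep q t k E (fun a => a = b)) ((0 : Fin q), false) v = s at *
    generalize hs' : List.foldl (bstep q t k E (fun a => a ≠ b)) ((0 : Fin q), false) v = s' at *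
    generalize tot (bstep q t k E (fun a => a = b)) (bdisp q t k E (fun a => a = b))
      ((0 : Fin q), false) v = T at *
    generalize tot (bstep q t k E (fun a => a ≠ b)) (bdisp q t k E (fun a => a ≠ b))
      ((0 : Fin q), false) v = T' at *
    generalize PB q E b ((t + k : ℕ) : ZMod q) v = P1 at *
    generalize PB q E b ((t : ℕ) : ZMod q) v = P2 at *
    simp only [List.foldl_cons, List.foldl_nil, tot, add_zero]
    by_cases hE : E a
    · simp only [hE, if_true]
      obtain ⟨i, f⟩ := s
      obtain ⟨i', f'⟩ := s'
      simp only at h1 h2 h4 h5
      have hii : i' = i := Fin.ext (by rw [h1, h2])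
      subst hii
      rw [← h1] at h3 h4 h5 ⊢
      have hmod : (nE E v + 1) % q = if i'.val + 1 < q then i'.val + 1 else 0 := by
        have e1 : (nE E v + 1) % q = (nE E v % q + 1) % q := by rw [Nat.mod_add_mod]
        rw [e1, ← h1]
        have hlt := i'.isLt
        split_ifs with h
        · exact Nat.mod_eq_of_lt h
        · have : i'.val + 1 = q := by omega
          rw [this, Nat.mod_self]
      rw [hmod]
      have hlt := i'.isLt
      simp only [bstep, bdisp, hE, if_true, true_and]
      by_cases hw : i'.val + 1 < q
      · simp only [hw, dif_pos, if_true, not_true_eq_false, false_and, if_false, add_zero]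
        refine ⟨trivial, trivial, ?_, ?_, ?_⟩
        · intro hle
          have := h3 (by omega)
          have n1 : ¬ (i'.val = t + k) := by omega
          have n2 : ¬ (i'.val = t) := by omega
          simp only [n1, n2, and_false, if_false]
          omega
        · intro hlt' hle
          by_cases c1 : i'.val = t
          · have := h3 (by omega)
            have n1 : ¬ (i'.val = t + k) := by omega
            by_cases hab : a = b
            · simp only [bflag, c1, if_true, hab, decide_true, ne_eq, not_true_eq_false,
                decide_false, Bool.not_true, fl_true, n1, and_false, if_false, and_true, true_and]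
              have n3 : ¬ (t = t + k) := by omega
              simp only [n3, if_false]
              omega
            · simp only [bflag, c1, if_true, hab, decide_false, ne_eq, not_false_eq_true,
                decide_true, Bool.not_false, fl_false, false_and, if_false, true_and]
              omega
          · have n1 : ¬ (i'.val = t + k) := by omega
            obtain ⟨e1, e2⟩ := h4 (by omega) (by omega)
            simp only [bflag, n1, c1, and_false, if_false]
            refine ⟨e1, by omega⟩
        · intro hgt
          by_cases c1 : i'.val = t + k
          · obtain ⟨e1, e2⟩ := h4 (by omega) (by omega)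
            have n1 : ¬ (t + k = t) := by omega
            simp only [bflag, c1, n1, if_false, if_true, and_true, and_false]
            subst e1
            by_cases hab : a = b
            · cases f <;> simp_all [fl] <;> omega
            · cases f <;> simp_all [fl] <;> omega
          · have n1 : ¬ (i'.val = t) := by omega
            have := h5 (by omega)
            simp only [bflag, n1, c1, and_false, if_false]
            omega
      · simp only [hw, dif_neg, if_false, not_false_eq_true, true_and]
        have hq1 : i'.val + 1 = q := by omega
        refine ⟨by simp, by simp, ?_, by intro h; omega, by intro h; omega⟩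
        intro _
        by_cases c1 : i'.val = t + k
        · obtain ⟨e1, e2⟩ := h4 (by omega) (by omega)
          have n1 : ¬ (t + k = t) := by omega
          simp only [bflag, c1, n1, if_false, if_true, and_true, and_false]
          subst e1
          by_cases hab : a = b
          · cases f <;> simp_all [fl] <;> omega
          · cases f <;> simp_all [fl] <;> omega
        · have n1 : ¬ (i'.val = t) := by omega
          have := h5 (by omega)
          simp only [bflag, n1, c1, and_false, if_false]
          cases f <;> cases f' <;> simp_all [fl] <;> omega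
    · have hab : ¬ (a = b) := by
        rintro rfl
        exact hE hb
      simp only [bstep, bdisp, hE, hab, if_false, false_and, add_zero]
      exact ⟨h1, h2, h3, h4, h5⟩

/-- The blocks with `x_{t+k} = b` minus the blocks with `x_t = b`. Proof by induction on `v` from
the right, for all `v` (not only full blocks), with the correction given by the two flags. -/
theorem blk_ident (q t k : ℕ) [NeZero q] (E : A → Prop) (b : A) (hb : E b) (hk : 0 < k)
    (ht : t + k < q) (v : List A) (hv : nE E v % q = 0) :
    tot (bstep q t k E (fun a => a = b)) (bdisp q t k E (fun a => a = b)) ((0 : Fin q), false) v -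
      tot (bstep q t k E (fun a => a ≠ b)) (bdisp q t k E (fun a => a ≠ b))
        ((0 : Fin q), false) v =
      PB q E b ((t + k : ℕ) : ZMod q) v - PB q E b ((t : ℕ) : ZMod q) v :=
  (blk_inv q t k E b hb hk ht v).2.2.1 (by omega)

/-- a prefix `b^i` -/
theorem PB_replicate (q : ℕ) [NeZero q] (E : A → Prop) (b : A) (hb : E b) (i t : ℕ) (hi : i < q)
    (ht : t < q) (u : List A) :
    PB q E b ((t : ℕ) : ZMod q) (List.replicate i b ++ u) =
      (if t < i then 1 else 0) + PB q E b (((t : ℕ) : ZMod q) - ((i : ℕ) : ZMod q)) u := by
  classical
  have hn : ∀ j : ℕ, nE E (List.replicate j b) = j := by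
    intro j
    induction j with
    | zero => rfl
    | succ j ih => rw [List.replicate_succ, nE_cons, ih, if_pos hb]
  induction u using List.reverseRecOn with
  | nil =>
    rw [List.append_nil]
    have h0 : ∀ z : ZMod q, PB q E b z [] = 0 := fun z => by simp [PB, IS_nil]
    rw [h0, add_zero]
    have key : ∀ j : ℕ, j < q → PB q E b ((t : ℕ) : ZMod q) (List.replicate j b) =
        if t < j then 1 else 0 := by
      intro j
      induction j with
      | zero => intro _; simp [h0]
      | succ j ih =>
        intro hj
        rw [List.replicate_succ', PB_append_singleton, ih (by omega), hn]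
        have e1 : ((j : ℕ) : ZMod q) = ((t : ℕ) : ZMod q) ↔ j = t := by
          rw [ZMod.natCast_eq_natCast_iff', Nat.mod_eq_of_lt (show j < q by omega),
            Nat.mod_eq_of_lt ht]
        simp only [true_and, e1]
        split_ifs <;> omega
    exact key i hi
  | append_singleton u a ih =>
    rw [← List.append_assoc, PB_append_singleton, PB_append_singleton, ih, nE_append, hn]
    have e1 : (((i + nE E u : ℕ) : ℕ) : ZMod q) = ((t : ℕ) : ZMod q) ↔
        ((nE E u : ℕ) : ZMod q) = ((t : ℕ) : ZMod q) - ((i : ℕ) : ZMod q) := by
      rw [eq_sub_iff_add_eq, Nat.cast_add, add_comm]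
    simp only [e1]
    ring

end Pool.Agent.NIL
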