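import Pool.Agent.NIL.Walk
import Pool.Agent.NIL.MZAlg
import Pool.Agent.NIL.ISAlg

/-!
# Clocks with values in `{-1, 0, 1}`
-/

set_option autoImplicit false

namespace Pool.Agent.NIL

open Pool.Agent.GSH

variable {A : Type}

theorem tot_unit (ε : A → ℤ) (u : List A) :
    tot (Q := Unit) (fun _ _ => ()) (fun _ a => ε a) () u = Ln ε u := by
  induction u with
  | nil => rfl
  | cons a u ih =>
    show ε a + tot (Q := Unit) (fun _ _ => ()) (fun _ a => ε a) () u = Ln ε (a :: u)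
    rw [ih]; simp [Ln]

open Classical in
/-- Walk lemma for the one point automaton (`Q = Unit`, displacement `ε`). -/
theorem famA_ind [Finite A] (ε : A → ℤ) (hε : ∀ a, |ε a| ≤ 1) (E : A → Prop)
    (hE : ∀ a, ε a ≠ 0 → E a) (M : ℕ) [NeZero M] (y : ZMod M) :
    MZ (IS E (fun u => if y + ((Ln ε u : ℤ) : ZMod M) = 0 then 1 else 0)) := by
  have h := walk (Q := Unit) (fun _ (_ : A) => ()) (fun _ a => ε a) () E
    (by
      intro q a ha
      refine ⟨rfl, ?_⟩
      by_contra h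
      exact ha (hE a h))
    (fun _ a => hε a) (fun _ _ _ => rfl) (fun _ _ _ => ⟨0, rfl⟩) E (fun _ h => h) M () y
  refine MZ.congr (fun w => ?_) h
  refine IS_congr (fun v => ?_) w
  rw [tot_unit]
  simp

/-- modulo `m`, the power `(Ln ε u)^k` is a combination of the indicator functions above
(with `M = m`) -/
theorem famA [Finite A] (ε : A → ℤ) (hε : ∀ a, |ε a| ≤ 1) (E : A → Prop)
    (hE : ∀ a, ε a ≠ 0 → E a) (k : ℕ) : MZ (IS E (fun u => (Ln ε u) ^ k)) := by
  classical
  intro m hm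
  have : NeZero m := ⟨by omega⟩
  let G : List A → ℤ := fun u => ∑ y : ZMod m, (((-y).val : ℤ) ^ k) *
    (if y + ((Ln ε u : ℤ) : ZMod m) = 0 then 1 else 0)
  have h1 : MZ (IS E G) := by
    refine MZ.congr (f := fun w => ∑ y ∈ (Finset.univ : Finset (ZMod m)), IS E (fun u =>
      (((-y).val : ℤ) ^ k) * (if y + ((Ln ε u : ℤ) : ZMod m) = 0 then 1 else 0)) w) (fun w => ?_) ?_
    · rw [← IS_sum]
    · refine MZ.sum _ _ (fun y _ => ?_)
      refine MZ.congr (f := fun w => (((-y).val : ℤ) ^ k) * IS E (fun u =>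
        (if y + ((Ln ε u : ℤ) : ZMod m) = 0 then 1 else 0)) w) (fun w => ?_) ?_
      · rw [IS_const_mul]
      · exact MZ.smul _ (famA_ind ε hε E hE m y)
  have h2 := h1 m hm
  have e : (fun w => ((IS E (fun u => (Ln ε u) ^ k) w : ℤ) : ZMod m)) =
      (fun w => ((IS E G w : ℤ) : ZMod m)) := by
    funext w
    refine IS_cast_congr E m (fun v => ?_) w
    show (((Ln ε v) ^ k : ℤ) : ZMod m) = ((∑ y : ZMod m, (((-y).val : ℤ) ^ k) *
      (if y + ((Ln ε v : ℤ) : ZMod m) = 0 then 1 else 0) : ℤ) : ZMod m)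
    rw [Finset.sum_eq_single (-((Ln ε v : ℤ) : ZMod m))]
    · simp
    · intro y _ hy
      rw [if_neg, mul_zero]
      intro h
      exact hy (eq_neg_of_add_eq_zero_left h)
    · intro h; exact absurd (Finset.mem_univ _) h
  rw [e]
  exact h2

/-- neutral letter: subtract `famA` for `E` and for `E` together with `c` -/
theorem famA_letter [Finite A] (ε : A → ℤ) (hε : ∀ a, |ε a| ≤ 1) (c : A) (hc : ε c = 0) (k : ℕ) :
    MZ (IS (fun a => a = c) (fun u => (Ln ε u) ^ k)) := by
  have h1 := famA ε hε (fun a => ε a ≠ 0) (fun _ h => h) k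
  have h2 := famA ε hε (fun a => ε a ≠ 0 ∨ a = c) (fun _ h => Or.inl h) k
  refine MZ.congr (fun w => ?_) (h2.sub h1)
  rw [IS_union (fun a => ε a ≠ 0) (fun a => a = c) (by
    intro a ha e; exact ha (e ▸ hc))]
  ring

end Pool.Agent.NIL
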