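import Pool.Agent.NIL.BlkCount
import Pool.Agent.NIL.BlkIdent
import Pool.Agent.NIL.FamA

/-!
# Differences of the letter counts `NB`, read at a neutral letter
-/

set_option autoImplicit false

namespace Pool.Agent.NIL

open Pool.Agent.GSH

variable {A : Type}

namespace BlkDiff_aux

theorem nE_replicate (E : A → Prop) (b : A) (hb : E b) (i : ℕ) :
    nE E (List.replicate i b) = i := by
  simp [nE, List.countP_replicate, hb]

open Classical in
theorem Ln_ind (E : A → Prop) (u : List A) :
    Ln (fun a => if E a then 1 else 0) u = (nE E u : ℤ) := by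
  induction u with
  | nil => simp [Ln, nE]
  | cons a u ih =>
    rw [nE_cons]
    have h : Ln (fun a => if E a then (1 : ℤ) else 0) (a :: u)
        = (if E a then 1 else 0) + Ln (fun a => if E a then (1 : ℤ) else 0) u := by
      simp [Ln]
    rw [h, ih]
    push_cast
    ring

theorem zmod_iff (q : ℕ) [NeZero q] (i n : ℕ) :
    ((i : ZMod q) + ((n : ℤ) : ZMod q) = 0) ↔ (i + n) % q = 0 := by
  rw [Int.cast_natCast, ← Nat.cast_add, ZMod.natCast_eq_zero_iff, Nat.dvd_iff_mod_eq_zero]

open Classical in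
theorem ind_letter [Finite A] (q : ℕ) [NeZero q] (E : A → Prop) (c : A) (hc : ¬ E c) (i : ℕ) :
    MZ (IS (fun a => a = c) (fun u => if (i + nE E u) % q = 0 then 1 else 0)) := by
  have hε : ∀ a, |(if E a then (1 : ℤ) else 0)| ≤ 1 := by
    intro a
    split_ifs <;> simp
  have hne : ∀ a, (if E a then (1 : ℤ) else 0) ≠ 0 → E a := by
    intro a h
    by_contra hcon
    rw [if_neg hcon] at h
    exact h rfl
  have h1 := famA_ind (fun a => if E a then 1 else 0) hε E hne q (i : ZMod q)
  have h2 := famA_ind (fun a => if E a then 1 else 0) hε (fun a => E a ∨ a = c)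
    (fun a h => Or.inl (hne a h)) q (i : ZMod q)
  refine MZ.congr ?_ (h2.sub h1)
  intro w
  rw [IS_union E (fun a => a = c) (fun a ha h => hc (h ▸ ha)), add_sub_cancel_left]
  refine IS_congr (fun u => ?_) w
  rw [Ln_ind]
  by_cases h : (i + nE E u) % q = 0
  · rw [if_pos ((zmod_iff q i _).mpr h), if_pos h]
  · rw [if_neg (fun h' => h ((zmod_iff q i _).mp h')), if_neg h]

theorem mod_unique (q m i : ℕ) (hq : 0 < q) (hi : i < q) :
    (i + m) % q = 0 ↔ i = (q - m % q) % q := by
  have h1 : m % q < q := Nat.mod_lt _ hq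
  rw [← Nat.add_mod_mod]
  rcases Nat.eq_zero_or_pos (m % q) with h3 | h3
  · rw [h3, add_zero, Nat.mod_eq_of_lt hi, Nat.sub_zero, Nat.mod_self]
  · rw [Nat.mod_eq_of_lt (show q - m % q < q by omega)]
    constructor
    · intro h
      have h6 : q ≤ i + m % q := by
        by_contra hcon
        push Not at hcon
        rw [Nat.mod_eq_of_lt hcon] at h
        omega
      have h7 : (i + m % q - q) % q = 0 := by
        rw [← Nat.mod_eq_sub_mod h6]
        exact h
      rw [Nat.mod_eq_of_lt (by omega)] at h7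
      omega
    · intro h
      rw [h, Nat.sub_add_cancel h1.le, Nat.mod_self]

end BlkDiff_aux

open BlkDiff_aux

open Classical in
/-- Start the two block automata after the word `b^i` and use `blk_ident`, `PB_replicate`;
when `i + nE E u ≡ 0` modulo `q`, `NB q E b (-t-1) u = PB q E b (t - i) u`. -/
theorem blk_diff_one [Finite A] (p r q t k : ℕ) [NeZero q] (E : A → Prop) (hp : p.Prime)
    (hq : q = p ^ (r + 1)) (hk : k = p ^ r) (ht : t + k < q) (c : A) (hc : ¬ E c)
    (b : A) (hb : E b) (i : ℕ) (hi : i < q) :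
    MZ (IS (fun a => a = c) (fun u => if (i + nE E u) % q = 0 then
      NB q E b (-((t + k : ℕ) : ZMod q) - 1) u - NB q E b (-((t : ℕ) : ZMod q) - 1) u
      else 0)) := by
  have hk0 : 0 < k := by rw [hk]; exact pow_pos hp.pos r
  have h1 := blk_tot p r q t k E (fun a => a = b) hp hq hk ht c hc (List.replicate i b)
  have h2 := blk_tot p r q t k E (fun a => a ≠ b) hp hq hk ht c hc (List.replicate i b)
  have h3 := (ind_letter q E c hc i).smul
    ((if t + k < i then (1 : ℤ) else 0) - (if t < i then 1 else 0))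
  refine MZ.congr ?_ ((h1.sub h2).sub h3)
  intro w
  rw [← IS_sub, ← IS_const_mul, ← IS_sub]
  refine IS_congr (fun u => ?_) w
  have hn : nE E (List.replicate i b ++ u) = i + nE E u := by
    rw [nE_append, nE_replicate E b hb]
  rw [hn]
  by_cases h : (i + nE E u) % q = 0
  · rw [if_pos h, if_pos h, if_pos h, if_pos h]
    have h4 := blk_ident q t k E b hb hk0 ht (List.replicate i b ++ u) (by rw [hn]; exact h)
    rw [h4, PB_replicate q E b hb i (t + k) hi ht u, PB_replicate q E b hb i t hi (by omega) u]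
    have h5 : ((nE E u : ℕ) : ZMod q) = -((i : ℕ) : ZMod q) := by
      have := (zmod_iff q i (nE E u)).mpr h
      rw [Int.cast_natCast] at this
      linear_combination this
    unfold NB
    rw [h5, show -((i : ℕ) : ZMod q) - 1 - (-((t + k : ℕ) : ZMod q) - 1)
      = ((t + k : ℕ) : ZMod q) - ((i : ℕ) : ZMod q) by ring,
      show -((i : ℕ) : ZMod q) - 1 - (-((t : ℕ) : ZMod q) - 1)
      = ((t : ℕ) : ZMod q) - ((i : ℕ) : ZMod q) by ring]
    ring
  · rw [if_neg h, if_neg h, if_neg h, if_neg h]
    ring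

/-- Sum of `blk_diff_one` over all `i < q`. -/
theorem blk_diff [Finite A] (p r q t k : ℕ) [NeZero q] (E : A → Prop) (hp : p.Prime)
    (hq : q = p ^ (r + 1)) (hk : k = p ^ r) (ht : t + k < q) (c : A) (hc : ¬ E c)
    (b : A) (hb : E b) :
    MZ (IS (fun a => a = c) (fun u =>
      NB q E b (-((t + k : ℕ) : ZMod q) - 1) u - NB q E b (-((t : ℕ) : ZMod q) - 1) u)) := by
  have hq0 : 0 < q := Nat.pos_of_ne_zero (NeZero.ne q)
  refine MZ.congr ?_ (MZ.sum (Finset.range q) _ (fun i hi =>
    blk_diff_one p r q t k E hp hq hk ht c hc b hb i (Finset.mem_range.1 hi)))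
  intro w
  rw [← IS_sum]
  refine IS_congr (fun u => ?_) w
  have hj : (q - nE E u % q) % q < q := Nat.mod_lt _ hq0
  rw [Finset.sum_eq_single ((q - nE E u % q) % q)]
  · rw [if_pos ((mod_unique q (nE E u) _ hq0 hj).mpr rfl)]
  · intro i hi hne
    rw [if_neg (fun h => hne ((mod_unique q (nE E u) i hq0 (Finset.mem_range.1 hi)).mp h))]
  · intro h
    exact absurd (Finset.mem_range.2 hj) h

end Pool.Agent.NIL
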