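import Pool.Agent.NIL.ISAlg

/-!
# Subword counts
-/

set_option autoImplicit false

namespace Pool.Agent.NIL

open Pool.Agent.GSH

variable {A : Type}

theorem C_nil (w : List A) : C w [] = 1 := by
  cases w <;> rfl

theorem C_nil_cons (b : A) (u : List A) : C ([] : List A) (b :: u) = 0 := rfl

open Classical in
theorem C_cons_cons (a b : A) (w u : List A) :
    C (a :: w) (b :: u) = C w (b :: u) + if a = b then C w u else 0 := rfl

open Classical in
/-- recursion from the right -/
theorem C_append_singleton (w u : List A) (a b : A) :
    C (w ++ [a]) (u ++ [b]) = C w (u ++ [b]) + if a = b then C w u else 0 := by
  induction w generalizing u with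
  | nil =>
    cases u with
    | nil => simp [C_cons_cons, C_nil, C_nil_cons]
    | cons c u => simp [C_cons_cons, C_nil_cons]
                  cases u <;> simp [C_nil_cons]
  | cons x w ih =>
    cases u with
    | nil =>
      have h := ih []
      simp only [List.nil_append] at h
      simp only [List.cons_append, List.nil_append, C_cons_cons, C_nil, h]
      ring
    | cons c u =>
      have h1 := ih (c :: u)
      have h2 := ih u
      simp only [List.cons_append] at h1
      simp only [List.cons_append, C_cons_cons, h1, h2]
      split_ifs <;> ring

theorem C_reverse (w u : List A) : C w.reverse u.reverse = C w u := by
  classical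
  induction w generalizing u with
  | nil =>
    cases u with
    | nil => rfl
    | cons b u =>
      rw [C_nil_cons, List.reverse_nil]
      cases h : (b :: u).reverse with
      | nil => simp at h
      | cons c v => rfl
  | cons a w ih =>
    cases u with
    | nil => rw [List.reverse_nil, C_nil, C_nil]
    | cons b u =>
      rw [List.reverse_cons, List.reverse_cons, C_append_singleton, C_cons_cons, ← ih u,
        ← ih (b :: u), List.reverse_cons]

theorem IS_C (u : List A) (c : A) (w : List A) :
    IS (fun x => x = c) (fun v => C v u) w = C w (u ++ [c]) := by
  classical
  induction w using List.reverseRecOn with
  | nil =>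
    rw [IS_nil]
    cases u <;> rfl
  | append_singleton w a ih =>
    rw [IS_append_singleton, ih, C_append_singleton]

/-- a word has no longer subwords -/
theorem C_eq_zero_of_length (w u : List A) (h : w.length < u.length) : C w u = 0 := by
  classical
  induction w generalizing u with
  | nil =>
    cases u with
    | nil => simp at h
    | cons b u => rfl
  | cons a w ih =>
    cases u with
    | nil => simp at h
    | cons b u =>
      simp only [List.length_cons] at h
      rw [C_cons_cons, ih (b :: u) (by simp only [List.length_cons]; omega), ih u (by omega)]
      simp

open Classical in
theorem C_same_length (w u : List A) (h : w.length = u.length) :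
    C w u = if w = u then 1 else 0 := by
  induction w generalizing u with
  | nil =>
    cases u with
    | nil => simp [C_nil]
    | cons b u => simp at h
  | cons a w ih =>
    cases u with
    | nil => simp at h
    | cons b u =>
      simp only [List.length_cons] at h
      rw [C_cons_cons, C_eq_zero_of_length w (b :: u) (by simp only [List.length_cons]; omega),
        ih u (by omega), zero_add]
      by_cases hab : a = b
      · by_cases hwu : w = u
        · simp [hab, hwu]
        · simp [hab, hwu]
      · simp [hab]

theorem infil_nil_left (v : List A) : infil [] v = [v] := by
  rw [infil]

theorem infil_nil_right (u : List A) : infil u [] = [u] := by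
  cases u <;> rw [infil]

open Classical in
theorem infil_cons_cons (a b : A) (u v : List A) :
    infil (a :: u) (b :: v) =
      (infil u (b :: v)).map (List.cons a) ++ (infil (a :: u) v).map (List.cons b) ++
        if a = b then (infil u v).map (List.cons a) else [] := by
  rw [infil]

private theorem sum_cons_nil (a : A) (l : List (List A)) :
    ((l.map (List.cons a)).map (C ([] : List A))).sum = 0 := by
  induction l with
  | nil => rfl
  | cons x l ih => simp only [List.map_cons, List.sum_cons, ih, C_nil_cons, add_zero]

open Classical in
private theorem sum_cons_cons (a c : A) (w : List A) (l : List (List A)) :
    ((l.map (List.cons a)).map (C (c :: w))).sum =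
      ((l.map (List.cons a)).map (C w)).sum + if c = a then (l.map (C w)).sum else 0 := by
  induction l with
  | nil => simp
  | cons x l ih =>
    simp only [List.map_cons, List.sum_cons, ih, C_cons_cons]
    split_ifs <;> ring

/-- product formula -/
theorem C_mul (w u v : List A) : C w u * C w v = ((infil u v).map (C w)).sum := by
  classical
  induction w generalizing u v with
  | nil =>
    cases u with
    | nil => simp [infil_nil_left, C_nil]
    | cons a u =>
      cases v with
      | nil => simp [infil_nil_right, C_nil]
      | cons b v =>
        rw [infil_cons_cons, C_nil_cons, zero_mul, List.map_append, List.map_append,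
          List.sum_append, List.sum_append, sum_cons_nil, sum_cons_nil]
        split_ifs
        · rw [sum_cons_nil]; rfl
        · rfl
  | cons c w ih =>
    cases u with
    | nil => simp [infil_nil_left, C_nil]
    | cons a u =>
      cases v with
      | nil => simp [infil_nil_right, C_nil]
      | cons b v =>
        have h0 := ih (a :: u) (b :: v)
        rw [infil_cons_cons, List.map_append, List.map_append, List.sum_append,
          List.sum_append] at h0
        rw [infil_cons_cons, C_cons_cons, C_cons_cons, List.map_append, List.map_append,
          List.sum_append, List.sum_append, sum_cons_cons, sum_cons_cons, ← ih u (b :: v),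
          ← ih (a :: u) v]
        by_cases hab : a = b
        · subst hab
          rw [if_pos rfl, sum_cons_cons, ← ih u v]
          rw [if_pos rfl] at h0
          by_cases hca : c = a
          · simp only [hca, if_true]
            linear_combination h0
          · simp only [hca, if_false]
            linear_combination h0
        · rw [if_neg hab] at h0 ⊢
          simp only [List.map_nil, List.sum_nil, add_zero] at h0 ⊢
          by_cases hca : c = a
          · have hcb : ¬ c = b := fun h => hab (hca ▸ h)
            simp only [hca, if_true, hab, if_false]
            linear_combination h0
          · by_cases hcb : c = b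
            · have hba : ¬ b = a := fun h => hab h.symm
              simp only [hcb, if_true, hba, if_false]
              linear_combination h0
            · simp only [hca, hcb, if_false]
              linear_combination h0

open Classical in
/-- the number of letters `a` -/
theorem C_letter (w : List A) (a : A) : C w [a] = Ln (fun x => if x = a then 1 else 0) w := by
  induction w with
  | nil => rfl
  | cons x w ih =>
    rw [C_cons_cons, ih, C_nil]
    simp only [Ln, List.map_cons, List.sum_cons]
    ring

end Pool.Agent.NIL
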