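import Pool.Agent.NIL.FamA
import Pool.Agent.NIL.SubW

/-!
# Products of at most three letter counts, read at a neutral letter
-/

set_option autoImplicit false

namespace Pool.Agent.NIL

open Pool.Agent.GSH

variable {A : Type}

section PolyAaux

variable {E : A → Prop} {F G : List A → ℤ}

private theorem pCongr (h : ∀ v, F v = G v) (hF : MZ (IS E F)) : MZ (IS E G) :=
  MZ.congr (fun w => IS_congr h w) hF

private theorem pAdd (hF : MZ (IS E F)) (hG : MZ (IS E G)) :
    MZ (IS E (fun v => F v + G v)) :=
  MZ.congr (fun w => (IS_add E F G w).symm) (MZ.add hF hG)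

private theorem pSub (hF : MZ (IS E F)) (hG : MZ (IS E G)) :
    MZ (IS E (fun v => F v - G v)) :=
  MZ.congr (fun w => (IS_sub E F G w).symm) (MZ.sub hF hG)

private theorem pMul (k : ℤ) (hF : MZ (IS E F)) : MZ (IS E (fun v => k * F v)) :=
  MZ.congr (fun w => (IS_const_mul E k F w).symm) (MZ.smul k hF)

private theorem pDiv (k : ℤ) (hk : k ≠ 0) (hF : MZ (IS E (fun v => k * F v))) :
    MZ (IS E F) :=
  MZ.div k hk (MZ.congr (fun w => IS_const_mul E k F w) hF)

private theorem Ln_add' (f g : A → ℤ) (u : List A) :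
    Ln (fun a => f a + g a) u = Ln f u + Ln g u := by
  induction u with
  | nil => simp [Ln]
  | cons a u ih =>
    simp only [Ln, List.map_cons, List.sum_cons] at ih ⊢
    rw [ih]
    ring

private theorem Ln_sub' (f g : A → ℤ) (u : List A) :
    Ln (fun a => f a - g a) u = Ln f u - Ln g u := by
  induction u with
  | nil => simp [Ln]
  | cons a u ih =>
    simp only [Ln, List.map_cons, List.sum_cons] at ih ⊢
    rw [ih]
    ring

open Classical in
/-- indicator of a letter -/
private noncomputable def lI (x : A) : A → ℤ := fun y => if y = x then 1 else 0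

private theorem C_lI (w : List A) (x : A) : Ln (lI x) w = C w [x] := (C_letter w x).symm

private theorem lI_self (x : A) : lI x x = 1 := by simp [lI]

private theorem lI_ne {x y : A} (h : y ≠ x) : lI x y = 0 := by simp [lI, h]

private theorem lI_cases (x y : A) : lI x y = 0 ∨ lI x y = 1 := by
  by_cases h : y = x
  · right
    rw [h, lI_self]
  · left
    exact lI_ne h

/-- powers of combinations of letter counts -/
private theorem pPow [Finite A] (ε : A → ℤ) (hε : ∀ a, |ε a| ≤ 1) (c : A) (hc : ε c = 0) (k : ℕ)
    (F : List A → ℤ) (h : ∀ u, Ln ε u = F u) :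
    MZ (IS (fun a => a = c) (fun u => F u ^ k)) :=
  pCongr (fun v => by rw [h v]) (famA_letter ε hε c hc k)

private theorem p1 [Finite A] (c x : A) (hx : x ≠ c) (k : ℕ) :
    MZ (IS (fun a => a = c) (fun u => C u [x] ^ k)) := by
  refine pPow (lI x) (fun a => ?_) c (lI_ne hx.symm) k _ fun u => C_lI u x
  rcases lI_cases x a with h | h <;> rw [h] <;> norm_num

private theorem p2 [Finite A] (c x y : A) (hx : x ≠ c) (hy : y ≠ c) (hxy : x ≠ y) (k : ℕ) :
    MZ (IS (fun a => a = c) (fun u => (C u [x] + C u [y]) ^ k)) := by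
  refine pPow (fun a => lI x a + lI y a) (fun a => ?_) c ?_ k _ fun u => ?_
  · by_cases h : a = x
    · rw [h, lI_self, lI_ne hxy]
      norm_num
    · rw [lI_ne h]
      rcases lI_cases y a with h | h <;> rw [h] <;> norm_num
  · simp only [lI_ne hx.symm, lI_ne hy.symm, add_zero]
  · rw [Ln_add', C_lI, C_lI]

private theorem p2' [Finite A] (c x y : A) (hx : x ≠ c) (hy : y ≠ c) (hxy : x ≠ y) (k : ℕ) :
    MZ (IS (fun a => a = c) (fun u => (C u [x] - C u [y]) ^ k)) := by
  refine pPow (fun a => lI x a - lI y a) (fun a => ?_) c ?_ k _ fun u => ?_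
  · by_cases h : a = x
    · rw [h, lI_self, lI_ne hxy]
      norm_num
    · rw [lI_ne h]
      rcases lI_cases y a with h | h <;> rw [h] <;> norm_num
  · simp only [lI_ne hx.symm, lI_ne hy.symm, sub_zero]
  · rw [Ln_sub', C_lI, C_lI]

end PolyAaux

theorem polyA0 [Finite A] (c : A) : MZ (fun w => C w [c]) := by
  have h := famA_letter (fun _ : A => (0 : ℤ)) (fun a => by simp) c rfl 0
  refine MZ.congr (fun w => ?_) h
  rw [← List.nil_append [c], ← IS_C]
  exact IS_congr (fun v => by rw [pow_zero, C_nil]) w

theorem polyA1 [Finite A] (c x : A) (hx : x ≠ c) :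
    MZ (IS (fun a => a = c) (fun u => C u [x])) :=
  pCongr (fun v => by rw [pow_one]) (p1 c x hx 1)

/-- polarisation: use `(x + y)^2`, `x^2`, `y^2` for `x ≠ y` -/
theorem polyA2 [Finite A] (c x y : A) (hx : x ≠ c) (hy : y ≠ c) :
    MZ (IS (fun a => a = c) (fun u => C u [x] * C u [y])) := by
  by_cases hxy : x = y
  · subst hxy
    exact pCongr (fun v => by ring) (p1 c x hx 2)
  · refine pDiv 2 (by norm_num) (pCongr (fun v => ?_)
      (pSub (pSub (p2 c x y hx hy hxy 2) (p1 c x hx 2)) (p1 c y hy 2)))
    ring

private theorem polyA3_two [Finite A] (c x z : A) (hx : x ≠ c) (hz : z ≠ c) (hxz : x ≠ z) :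
    MZ (IS (fun a => a = c) (fun u => C u [x] * C u [x] * C u [z])) := by
  refine pDiv 6 (by norm_num) (pCongr (fun v => ?_)
    (pSub (pSub (p2 c x z hx hz hxz 3) (p2' c x z hx hz hxz 3)) (pMul 2 (p1 c z hz 3))))
  ring

/-- polarisation: for `x ≠ y` the cubes `(x + y)^3`, `(x - y)^3`, `x^3`, `y^3` give
`6 x^2 y` and `6 x y^2`; for distinct `x, y, z` use
`24 x y z = (x+y+z)^3 - (x+y-z)^3 - (x-y+z)^3 + (x-y-z)^3`. -/
theorem polyA3 [Finite A] (c x y z : A) (hx : x ≠ c) (hy : y ≠ c) (hz : z ≠ c) :
    MZ (IS (fun a => a = c) (fun u => C u [x] * C u [y] * C u [z])) := by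
  by_cases hxy : x = y
  · subst hxy
    by_cases hxz : x = z
    · subst hxz
      exact pCongr (fun v => by ring) (p1 c x hx 3)
    · exact polyA3_two c x z hx hz hxz
  · by_cases hxz : x = z
    · subst hxz
      exact pCongr (fun v => by ring) (polyA3_two c x y hx hy hxy)
    · by_cases hyz : y = z
      · subst hyz
        exact pCongr (fun v => by ring) (polyA3_two c y x hy hx (Ne.symm hxy))
      · have key : ∀ s t : ℤ, (s = 1 ∨ s = -1) → (t = 1 ∨ t = -1) →
            MZ (IS (fun a => a = c)
              (fun u => (C u [x] + (s * C u [y] + t * C u [z])) ^ 3)) := by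
          intro s t hs ht
          refine pPow (fun a => lI x a + (s * lI y a + t * lI z a)) (fun a => ?_) c ?_ 3 _
            fun u => ?_
          · by_cases h : a = x
            · rw [h, lI_self, lI_ne hxy, lI_ne hxz]
              norm_num
            · rw [lI_ne h]
              by_cases h' : a = y
              · rw [h', lI_self, lI_ne hyz]
                rcases hs with rfl | rfl <;> norm_num
              · rw [lI_ne h']
                rcases lI_cases z a with h'' | h'' <;> rw [h'']
                · norm_num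
                · rcases ht with rfl | rfl <;> norm_num
          · simp only [lI_ne hx.symm, lI_ne hy.symm, lI_ne hz.symm]
            ring
          · rw [Ln_add', Ln_add', C_lI]
            have h1 : ∀ (k : ℤ) (w : A), Ln (fun a => k * lI w a) u = k * C u [w] := by
              intro k w
              rw [← C_lI]
              simp only [Ln]
              rw [List.sum_map_mul_left]
            rw [h1, h1]
        have h := pAdd (pSub (pSub (key 1 1 (Or.inl rfl) (Or.inl rfl))
          (key 1 (-1) (Or.inl rfl) (Or.inr rfl))) (key (-1) 1 (Or.inr rfl) (Or.inl rfl)))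
          (key (-1) (-1) (Or.inr rfl) (Or.inr rfl))
        refine pDiv 24 (by norm_num) (pCongr (fun v => ?_) h)
        ring

/-- signed clock, all moving letters counted -/
theorem polyS3 [Finite A] (a b : A) (hab : a ≠ b) :
    MZ (IS (fun x => x = a ∨ x = b) (fun u => (C u [a] - C u [b]) ^ 3)) := by
  refine pCongr (fun v => ?_) (famA (fun x => lI a x - lI b x) (fun x => ?_)
    (fun x => x = a ∨ x = b) (fun x hx => ?_) 3)
  · rw [Ln_sub', C_lI, C_lI]
  · by_cases h : x = a
    · rw [h, lI_self, lI_ne hab]
      norm_num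
    · rw [lI_ne h]
      rcases lI_cases b x with h | h <;> rw [h] <;> norm_num
  · by_contra hcon
    rw [not_or] at hcon
    rw [lI_ne hcon.1, lI_ne hcon.2] at hx
    exact hx (sub_self 0)

end Pool.Agent.NIL
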