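import Pool.Agent.NIL.BlkDiff
import Pool.Agent.NIL.PolyA

/-!
# All letter counts `NB` modulo prime powers
-/

set_option autoImplicit false

namespace Pool.Agent.NIL

open Pool.Agent.GSH

variable {A : Type}

namespace BlkIndAux

/-- exactly one of the `p` lifts of a congruence modulo `q` holds modulo `q * p` -/
theorem sum_ind (p q x N : ℕ) (hp : 0 < p) (hq : 0 < q) :
    ∑ j ∈ Finset.range p,
      (if ((x : ℕ) : ZMod (q * p)) = ((N + j * q : ℕ) : ZMod (q * p)) then (1 : ℤ) else 0) =
      if ((x : ℕ) : ZMod q) = ((N : ℕ) : ZMod q) then 1 else 0 := by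
  have hq' : (q : ℤ) ≠ 0 := by exact_mod_cast hq.ne'
  have hp' : (0 : ℤ) < (p : ℤ) := by exact_mod_cast hp
  have key : ∀ j : ℕ, (((x : ℕ) : ZMod (q * p)) = ((N + j * q : ℕ) : ZMod (q * p))) ↔
      ((q : ℤ) * (p : ℤ)) ∣ ((x : ℤ) - (N + j * q)) := by
    intro j
    have h1 : (((x : ℕ) : ZMod (q * p)) = ((N + j * q : ℕ) : ZMod (q * p))) ↔
        ((((x : ℤ) - ((N : ℤ) + j * q) : ℤ) : ZMod (q * p)) = 0) := by
      push_cast
      rw [sub_eq_zero]
    rw [h1, ZMod.intCast_zmod_eq_zero_iff_dvd]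
    push_cast
    rfl
  have key2 : (((x : ℕ) : ZMod q) = ((N : ℕ) : ZMod q)) ↔ (q : ℤ) ∣ ((x : ℤ) - N) := by
    have h1 : (((x : ℕ) : ZMod q) = ((N : ℕ) : ZMod q)) ↔
        ((((x : ℤ) - (N : ℤ) : ℤ) : ZMod q) = 0) := by
      push_cast
      rw [sub_eq_zero]
    rw [h1, ZMod.intCast_zmod_eq_zero_iff_dvd]
  by_cases h : (q : ℤ) ∣ ((x : ℤ) - N)
  · rw [if_pos (key2.2 h)]
    obtain ⟨d, hd⟩ := h
    have hm0 : 0 ≤ d % (p : ℤ) := Int.emod_nonneg _ hp'.ne'
    have hm1 : d % (p : ℤ) < p := Int.emod_lt_of_pos _ hp'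
    have hmem : (d % (p : ℤ)).toNat ∈ Finset.range p := by
      rw [Finset.mem_range]
      omega
    rw [Finset.sum_eq_single_of_mem _ hmem]
    · rw [if_pos]
      rw [key]
      have hcast : (((d % (p : ℤ)).toNat : ℕ) : ℤ) = d % (p : ℤ) := Int.toNat_of_nonneg hm0
      rw [hcast]
      have : (x : ℤ) - (N + d % (p : ℤ) * q) = (q : ℤ) * (p : ℤ) * (d / (p : ℤ)) := by
        have h2 := Int.emod_add_mul_ediv d (p : ℤ)
        have h3 : (x : ℤ) = N + q * d := by linarith
        rw [h3]
        calc (N : ℤ) + q * d - (N + d % (p : ℤ) * q) = q * (d - d % (p : ℤ)) := by ring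
          _ = q * ((p : ℤ) * (d / (p : ℤ))) := by
              congr 1
              linarith
          _ = (q : ℤ) * (p : ℤ) * (d / (p : ℤ)) := by ring
      rw [this]
      exact Dvd.intro _ rfl
    · intro j hj hne
      rw [if_neg]
      rw [key]
      intro hdvd
      apply hne
      have h3 : (x : ℤ) - (N + j * q) = q * (d - j) := by
        have : (x : ℤ) - (N + j * q) = ((x : ℤ) - N) - j * q := by ring
        rw [this, hd]
        ring
      rw [h3] at hdvd
      have h4 : (p : ℤ) ∣ d - j := (mul_dvd_mul_iff_left hq').1 hdvd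
      have h5' : (j : ℤ) ≡ d [ZMOD (p : ℤ)] := Int.modEq_iff_dvd.2 h4
      have h5 : d % (p : ℤ) = (j : ℤ) % (p : ℤ) := h5'.symm
      have h6 : (j : ℤ) % (p : ℤ) = j := by
        apply Int.emod_eq_of_lt (by positivity)
        exact_mod_cast Finset.mem_range.1 hj
      rw [h5, h6]
      simp
  · rw [if_neg (fun hh => h (key2.1 hh))]
    apply Finset.sum_eq_zero
    intro j _
    rw [if_neg]
    rw [key]
    intro hdvd
    apply h
    have h1 : (q : ℤ) ∣ ((x : ℤ) - (N + j * q)) := (Dvd.intro _ rfl).trans hdvd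
    have h2 : (x : ℤ) - N = ((x : ℤ) - (N + j * q)) + q * j := by ring
    rw [h2]
    exact dvd_add h1 (Dvd.intro _ rfl)

theorem NB_eq (q n : ℕ) (E : A → Prop) (b : A) (u : List A) :
    NB q E b (-((n : ℕ) : ZMod q) - 1) u = PB q E b ((nE E u + n : ℕ) : ZMod q) u := by
  unfold NB
  congr 1
  push_cast
  ring

end BlkIndAux

/-- from modulus `p^(r+1)` to modulus `p^r` -/
theorem NB_sum (p r : ℕ) (hp : p.Prime) (E : A → Prop) (b : A) (i : ℕ) (u : List A) :
    ∑ j ∈ Finset.range p, NB (p ^ (r + 1)) E b ((-((i + j * p ^ r : ℕ) : ZMod (p ^ (r + 1)))) - 1) u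
      = NB (p ^ r) E b ((-((i : ℕ) : ZMod (p ^ r))) - 1) u := by
  rw [BlkIndAux.NB_eq]
  have h1 : ∀ j ∈ Finset.range p,
      NB (p ^ (r + 1)) E b ((-((i + j * p ^ r : ℕ) : ZMod (p ^ (r + 1)))) - 1) u =
      PB (p ^ (r + 1)) E b ((nE E u + (i + j * p ^ r) : ℕ) : ZMod (p ^ (r + 1))) u :=
    fun j _ => BlkIndAux.NB_eq _ _ _ _ _
  rw [Finset.sum_congr rfl h1]
  unfold PB
  rw [← IS_sum]
  apply IS_congr
  intro v
  have h2 := BlkIndAux.sum_ind p (p ^ r) (nE E v) (nE E u + i) hp.pos (pow_pos hp.pos r)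
  rw [← pow_succ] at h2
  rw [← h2]
  apply Finset.sum_congr rfl
  intro j _
  rw [add_assoc]

/-- Induction on `r`: `p * T_j = sum + differences`, where `T_j` is the count for the class
`-(i + j p^r) - 1`, `j < p`, `i < p^r`. For `r = 0` (modulus one) it is `polyA1`. -/
theorem NB_meas [Finite A] (p r : ℕ) (hp : p.Prime) (E : A → Prop) (c : A) (hc : ¬ E c) (b : A)
    (hb : E b) (i : ZMod (p ^ r)) :
    MZ (IS (fun a => a = c) (NB (p ^ r) E b i)) := by
  induction r with
  | zero =>
    have hbc : b ≠ c := fun h => hc (h ▸ hb)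
    refine MZ.congr ?_ (polyA1 c b hbc)
    intro w
    apply IS_congr
    intro u
    have h1 := IS_C ([] : List A) b u
    rw [List.nil_append] at h1
    rw [← h1]
    unfold NB PB
    apply IS_congr
    intro v
    rw [C_nil, if_pos]
    have : Subsingleton (ZMod (p ^ 0)) := by
      rw [pow_zero]
      infer_instance
    exact Subsingleton.elim _ _
  | succ r ih =>
    have hq : 0 < p ^ r := pow_pos hp.pos r
    have hq1 : 0 < p ^ (r + 1) := pow_pos hp.pos (r + 1)
    have hne : NeZero (p ^ (r + 1)) := ⟨hq1.ne'⟩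
    -- the index
    set n : ℕ := (-i - 1).val with hn
    have hnlt : n < p ^ (r + 1) := ZMod.val_lt _
    have hi : i = -((n : ℕ) : ZMod (p ^ (r + 1))) - 1 := by
      rw [hn, ZMod.natCast_zmod_val]
      ring
    set i0 : ℕ := n % p ^ r with hi0
    set j0 : ℕ := n / p ^ r with hj0
    have hi0lt : i0 < p ^ r := Nat.mod_lt _ hq
    have hj0lt : j0 < p := by
      rw [hj0]
      apply Nat.div_lt_of_lt_mul
      rw [← pow_succ]
      exact hnlt
    have hnij : n = i0 + j0 * p ^ r := by
      rw [hi0, hj0, mul_comm]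
      exact (Nat.mod_add_div n (p ^ r)).symm
    let T : ℕ → List A → ℤ := fun j u =>
      NB (p ^ (r + 1)) E b ((-((i0 + j * p ^ r : ℕ) : ZMod (p ^ (r + 1)))) - 1) u
    have hT : ∀ j, T j = fun u =>
      NB (p ^ (r + 1)) E b ((-((i0 + j * p ^ r : ℕ) : ZMod (p ^ (r + 1)))) - 1) u := fun _ => rfl
    have hlt : ∀ j, j < p → i0 + j * p ^ r < p ^ (r + 1) := by
      intro j hj
      have : (j + 1) * p ^ r ≤ p * p ^ r := Nat.mul_le_mul_right _ hj
      rw [pow_succ]
      nlinarith
    have hstep : ∀ j, j + 1 < p → MZ (IS (fun a => a = c) (fun u => T (j + 1) u - T j u)) := by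
      intro j hj
      have h := blk_diff p r (p ^ (r + 1)) (i0 + j * p ^ r) (p ^ r) E hp rfl rfl
        (by
          have := hlt (j + 1) hj
          have h2 : i0 + j * p ^ r + p ^ r = i0 + (j + 1) * p ^ r := by ring
          omega) c hc b hb
      refine MZ.congr ?_ h
      intro w
      apply IS_congr
      intro u
      have h2 : i0 + j * p ^ r + p ^ r = i0 + (j + 1) * p ^ r := by ring
      simp only [hT]
      rw [h2]
    have hdiff : ∀ j, j < p → MZ (IS (fun a => a = c) (fun u => T j u - T 0 u)) := by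
      intro j
      induction j with
      | zero =>
        intro _
        refine MZ.congr ?_ (MZ.const 0)
        intro w
        have : ∀ v : List A, T 0 v - T 0 v = 0 := fun v => sub_self _
        rw [IS_congr this w, IS_zero]
      | succ j ihj =>
        intro hj
        refine MZ.congr ?_ (MZ.add (hstep j hj) (ihj (by omega)))
        intro w
        rw [← IS_add]
        apply IS_congr
        intro v
        ring
    have hS : MZ (IS (fun a => a = c) (fun u => ∑ j ∈ Finset.range p, T j u)) := by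
      refine MZ.congr ?_ (ih ((-((i0 : ℕ) : ZMod (p ^ r))) - 1))
      intro w
      apply IS_congr
      intro u
      exact (NB_sum p r hp E b i0 u).symm
    have hp0 : (p : ℤ) ≠ 0 := by exact_mod_cast hp.ne_zero
    have hmain : MZ (fun w => (p : ℤ) * IS (fun a => a = c) (T j0) w) := by
      have h1 := MZ.add hS (MZ.sum (Finset.range p)
        (fun j w => IS (fun a => a = c) (fun u => T j0 u - T 0 u) w -
          IS (fun a => a = c) (fun u => T j u - T 0 u) w)
        (fun j hj => MZ.sub (hdiff j0 hj0lt) (hdiff j (Finset.mem_range.1 hj))))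
      refine MZ.congr ?_ h1
      intro w
      simp only [IS_sub, IS_sum]
      have h2 : ∀ j ∈ Finset.range p,
          (IS (fun a => a = c) (T j0) w - IS (fun a => a = c) (T 0) w -
            (IS (fun a => a = c) (T j) w - IS (fun a => a = c) (T 0) w)) =
          IS (fun a => a = c) (T j0) w - IS (fun a => a = c) (T j) w := by
        intro j _
        ring
      rw [Finset.sum_congr rfl h2, Finset.sum_sub_distrib, Finset.sum_const, Finset.card_range,
        nsmul_eq_mul]
      ring
    have hfin := MZ.div (p : ℤ) hp0 hmain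
    refine MZ.congr ?_ hfin
    intro w
    apply IS_congr
    intro u
    simp only [hT]
    rw [hi, hnij]

end Pool.Agent.NIL
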