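import Pool.Agent.GSH.Counter

/-!
# Nilpotent groups and generalized star height: definitions
-/

set_option autoImplicit false

namespace Pool.Agent.NIL

open Pool.Agent.GSH

variable {A : Type}

/-- Integer valued functions on words such that, for every `m ≥ 1`, all level sets of the
reduction modulo `m` have generalized star height at most one. -/
def MZ (f : List A → ℤ) : Prop := ∀ m : ℕ, 0 < m → Meas 1 (fun w => ((f w : ℤ) : ZMod m))

open Classical in
/-- number of occurrences of `u` as a subword (subsequence) of `w` -/
noncomputable def C : List A → List A → ℤ
  | _, [] => 1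
  | [], _ :: _ => 0
  | a :: w, b :: u => C w (b :: u) + if a = b then C w u else 0

open Classical in
/-- auxiliary function for `IS`; `p` is the prefix already read -/
noncomputable def ISa (E : A → Prop) (F : List A → ℤ) : List A → List A → ℤ
  | _, [] => 0
  | p, a :: w => (if E a then F p else 0) + ISa E F (p ++ [a]) w

/-- `IS E F w` is the sum of `F p` over all factorisations `w = p ++ a :: s` with `E a`. -/
noncomputable def IS (E : A → Prop) (F : List A → ℤ) (w : List A) : ℤ := ISa E F [] w

theorem IS_nil (E : A → Prop) (F : List A → ℤ) : IS E F [] = 0 := rfl

theorem ISa_append (E : A → Prop) (F : List A → ℤ) (p u v : List A) :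
    ISa E F p (u ++ v) = ISa E F p u + ISa E F (p ++ u) v := by
  induction u generalizing p with
  | nil => simp [ISa]
  | cons a u ih => simp [ISa, ih, add_assoc]

open Classical in
theorem IS_append_singleton (E : A → Prop) (F : List A → ℤ) (w : List A) (a : A) :
    IS E F (w ++ [a]) = IS E F w + if E a then F w else 0 := by
  simp [IS, ISa_append, ISa]

/-- total of the weights of the letters -/
def Ln (ε : A → ℤ) (w : List A) : ℤ := (w.map ε).sum

theorem Ln_nil (ε : A → ℤ) : Ln ε [] = 0 := rfl

theorem Ln_append (ε : A → ℤ) (u v : List A) : Ln ε (u ++ v) = Ln ε u + Ln ε v := by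
  simp [Ln]

theorem Ln_singleton (ε : A → ℤ) (a : A) : Ln ε [a] = ε a := by simp [Ln]

/-- total displacement along a run of an automaton -/
def tot {Q : Type} (step : Q → A → Q) (disp : Q → A → ℤ) : Q → List A → ℤ
  | _, [] => 0
  | q, a :: w => disp q a + tot step disp (step q a) w

theorem tot_append {Q : Type} (step : Q → A → Q) (disp : Q → A → ℤ) (q : Q) (u v : List A) :
    tot step disp q (u ++ v) = tot step disp q u + tot step disp (List.foldl step q u) v := by
  induction u generalizing q with
  | nil => simp [tot]
  | cons a u ih => simp [tot, ih, add_assoc]

open Classical in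
/-- number of letters in `E` -/
noncomputable def nE (E : A → Prop) (w : List A) : ℕ := w.countP (fun a => decide (E a))

theorem nE_nil (E : A → Prop) : nE E ([] : List A) = 0 := rfl

theorem nE_append (E : A → Prop) (u v : List A) : nE E (u ++ v) = nE E u + nE E v := by
  simp [nE]

open Classical in
theorem nE_singleton (E : A → Prop) (a : A) : nE E [a] = if E a then 1 else 0 := by
  simp [nE, List.countP_cons]

open Classical in
theorem nE_cons (E : A → Prop) (a : A) (w : List A) :
    nE E (a :: w) = nE E w + if E a then 1 else 0 := by
  simp [nE, List.countP_cons]

/-! ### the block automaton -/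

open Classical in
/-- new value of the flag when the letter `a` is read at position `i` of a block -/
noncomputable def bflag (t k : ℕ) (β : A → Prop) (i : ℕ) (f : Bool) (a : A) : Bool :=
  if i = t then decide (β a) else if i = t + k then (f && !(decide (β a))) else f

open Classical in
/-- The block automaton. The letters of `E` are read in blocks of length `q`; the state is the
position in the current block and a flag; at the end of a block the flag tells whether the letter
at position `t` satisfies `β` and the letter at position `t + k` does not. -/
noncomputable def bstep (q t k : ℕ) [NeZero q] (E β : A → Prop) (s : Fin q × Bool) (a : A) :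
    Fin q × Bool :=
  if E a then
    if h : s.1.val + 1 < q then (⟨s.1.val + 1, h⟩, bflag t k β s.1.val s.2 a) else (0, false)
  else s

open Classical in
/-- displacement: one for every completed block which is not special -/
noncomputable def bdisp (q t k : ℕ) [NeZero q] (E β : A → Prop) (s : Fin q × Bool) (a : A) : ℤ :=
  if E a ∧ ¬ (s.1.val + 1 < q) ∧ bflag t k β s.1.val s.2 a = false then 1 else 0

open Classical in
/-- number of letters `b` of `w` such that the number of letters of `E` before it is `j`
modulo `q` -/
noncomputable def PB (q : ℕ) (E : A → Prop) (b : A) (j : ZMod q) (w : List A) : ℤ :=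
  IS (fun x => x = b) (fun v => if ((nE E v : ℕ) : ZMod q) = j then 1 else 0) w

open Classical in
/-- number of letters `b` of `u` such that the number of letters of `E` strictly after it is `i`
modulo `q` (for `b` in `E`) -/
noncomputable def NB (q : ℕ) (E : A → Prop) (b : A) (i : ZMod q) (u : List A) : ℤ :=
  PB q E b (((nE E u : ℕ) : ZMod q) - 1 - i) u

/-! ### infiltration product -/

open Classical in
/-- infiltration product of two words, as a list of words -/
noncomputable def infil : List A → List A → List (List A)
  | [], v => [v]
  | a :: u, [] => [a :: u]
  | a :: u, b :: v =>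
      (infil u (b :: v)).map (List.cons a) ++ (infil (a :: u) v).map (List.cons b) ++
        if a = b then (infil u v).map (List.cons a) else []

/-! ### groups of cubes -/

section Cubes

variable {G : Type}

open Classical in
/-- upper face element -/
noncomputable def EJ [Group G] (J : Finset ℕ) (g : G) : Finset ℕ → G :=
  fun ω => if J ⊆ ω then g else 1

/-- filtration of a group -/
structure Filt [Group G] (Γ : ℕ → Subgroup G) : Prop where
  anti : Antitone Γ
  zero : Γ 0 = ⊤
  one : Γ 1 = ⊤
  comm : ∀ i j, ⁅Γ i, Γ j⁆ ≤ Γ (i + j)

/-- the group of cubes of dimension `n` -/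
def HK [Group G] (Γ : ℕ → Subgroup G) (n : ℕ) : Subgroup (Finset ℕ → G) :=
  Subgroup.closure {h | ∃ J : Finset ℕ, J ⊆ Finset.range n ∧ ∃ g ∈ Γ J.card, h = EJ J g}

end Cubes

open Classical in
/-- the subword of `x` with positions in `ω` -/
noncomputable def sub (x : List A) (ω : Finset ℕ) : List A :=
  (x.zipIdx.filter (fun p => decide (p.2 ∈ ω))).map Prod.fst

end Pool.Agent.NIL
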