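import Pool.Agent.NIL.PolyA

/-!
# Subword counts of length at most three
-/

set_option autoImplicit false

namespace Pool.Agent.NIL

open Pool.Agent.GSH

variable {A : Type}

theorem deg1 [Finite A] (a : A) : MZ (fun w => C w [a]) := polyA0 a

/-- `a ≠ b`: `polyA1`; `a = b`: `C w [a]^2 = 2 C w [a,a] + C w [a]`. -/
theorem deg2 [Finite A] (a b : A) : MZ (fun w => C w [a, b]) := by
  by_cases hab : a = b
  · subst hab
    refine MZ.div 2 (by norm_num) ?_
    have h := ((deg1 a).mul (deg1 a)).sub (deg1 a)
    refine h.congr fun w => ?_
    have := C_mul w [a] [a]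
    simp only [infil_cons_cons, infil_nil_left, infil_nil_right, if_true, List.map_cons,
      List.map_nil, List.sum_cons, List.sum_nil, List.map_append, List.sum_append] at this
    linarith
  · refine (polyA1 b a hab).congr fun w => ?_
    exact IS_C [a] b w

/-- `aab` with `a ≠ b` -/
private theorem deg3_aab [Finite A] (a b : A) (hab : a ≠ b) : MZ (fun w => C w [a, a, b]) := by
  refine MZ.div 2 (by norm_num) ?_
  have h := (polyA2 b a a hab hab).sub (deg2 a b)
  refine h.congr fun w => ?_
  have h1 : ∀ v : List A, C v [a] * C v [a] = 2 * C v [a, a] + C v [a] := by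
    intro v
    have := C_mul v [a] [a]
    simp only [infil_cons_cons, infil_nil_left, infil_nil_right, if_true, List.map_cons,
      List.map_nil, List.sum_cons, List.sum_nil, List.map_append, List.sum_append] at this
    linarith
  rw [IS_congr h1, IS_add, IS_const_mul, IS_C, IS_C]
  simp

private theorem deg3_sym [Finite A] (a b c : A) (hac : a ≠ c) (hbc : b ≠ c) (hab : a ≠ b) :
    MZ (fun w => C w [a, b, c] + C w [b, a, c]) := by
  refine (polyA2 c a b hac hbc).congr fun w => ?_
  have h1 : ∀ v : List A, C v [a] * C v [b] = C v [a, b] + C v [b, a] := by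
    intro v
    have := C_mul v [a] [b]
    simp only [infil_cons_cons, infil_nil_left, infil_nil_right, if_neg hab, List.map_cons,
      List.map_nil, List.sum_cons, List.sum_nil, List.map_append, List.sum_append] at this
    linarith
  rw [IS_congr h1, IS_add, IS_C, IS_C]
  simp

private theorem deg3_aba [Finite A] (a b : A) (hab : a ≠ b) : MZ (fun w => C w [a, b, a]) := by
  have h := (((deg1 a).mul (deg2 a b)).sub ((deg3_aab a b hab).smul 2)).sub (deg2 a b)
  refine h.congr fun w => ?_
  have := C_mul w [a] [a, b]
  simp only [infil_cons_cons, infil_nil_left, infil_nil_right, if_neg hab, if_true,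
    List.map_cons, List.map_nil, List.sum_cons, List.sum_nil, List.map_append,
    List.sum_append] at this
  linarith

private theorem deg3_baa [Finite A] (a b : A) (hab : a ≠ b) : MZ (fun w => C w [b, a, a]) := by
  refine MZ.div 2 (by norm_num) ?_
  have h := (((deg1 a).mul (deg2 b a)).sub (deg3_aba a b hab)).sub (deg2 b a)
  refine h.congr fun w => ?_
  have := C_mul w [a] [b, a]
  simp only [infil_cons_cons, infil_nil_left, infil_nil_right, if_neg hab, if_true,
    List.map_cons, List.map_nil, List.sum_cons, List.sum_nil, List.map_append,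
    List.sum_append] at this
  linarith

private theorem deg3_aaa [Finite A] (a : A) : MZ (fun w => C w [a, a, a]) := by
  refine MZ.div 3 (by norm_num) ?_
  have h := ((deg1 a).mul (deg2 a a)).sub ((deg2 a a).smul 2)
  refine h.congr fun w => ?_
  have := C_mul w [a] [a, a]
  simp only [infil_cons_cons, infil_nil_left, infil_nil_right, if_true,
    List.map_cons, List.map_nil, List.sum_cons, List.sum_nil, List.map_append,
    List.sum_append] at this
  linarith

private theorem deg3_abc [Finite A] (a b c : A) (hab : a ≠ b) (hac : a ≠ c) (hbc : b ≠ c) :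
    MZ (fun w => C w [a, b, c]) := by
  have h := ((deg1 c).mul (deg2 a b)).sub (deg3_sym c a b (Ne.symm hbc) hab (Ne.symm hac))
  refine h.congr fun w => ?_
  have := C_mul w [c] [a, b]
  simp only [infil_cons_cons, infil_nil_left, infil_nil_right, if_neg (Ne.symm hac),
    if_neg (Ne.symm hbc), List.map_cons, List.map_nil, List.sum_cons, List.sum_nil,
    List.map_append, List.sum_append] at this
  linarith

/-- `aab` with `a ≠ b`: `polyA2`; then `aba`, `baa` with `C_mul [a] [a,b]`, `C_mul [a] [b,a]`;
`aaa` with `C_mul [a] [a,a]`; distinct letters: `polyA2` gives `abc + bac`, for all orders, and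
`C_mul [c] [a,b]` gives `cab + acb + abc`, so `abc`. -/
theorem deg3 [Finite A] (a b c : A) : MZ (fun w => C w [a, b, c]) := by
  by_cases hab : a = b
  · subst hab
    by_cases hac : a = c
    · subst hac
      exact deg3_aaa a
    · exact deg3_aab a c hac
  · by_cases hac : a = c
    · subst hac
      exact deg3_aba a b hab
    · by_cases hbc : b = c
      · subst hbc
        exact deg3_baa b a (Ne.symm hab)
      · exact deg3_abc a b c hab hac hbc

end Pool.Agent.NIL
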