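import Pool.Agent.NIL.Deg3

/-!
# Relations between subword counts of length four: common lemmas
-/

set_option autoImplicit false

namespace Pool.Agent.NIL

open Pool.Agent.GSH

variable {A : Type}

theorem d4_rev_right (w u : List A) : C w u.reverse = C w.reverse u := by
  have h := C_reverse w.reverse u
  rwa [List.reverse_reverse] at h

/-- reversal -/
theorem MZ_rev (u : List A) (h : MZ (fun w => C w u)) : MZ (fun w => C w u.reverse) :=
  MZ.congr (fun w => (d4_rev_right w u).symm) h.reverse

/-- reversal of a sum of two subword counts -/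
theorem MZ_rev2 (u v : List A) (h : MZ (fun w => C w u + C w v)) :
    MZ (fun w => C w u.reverse + C w v.reverse) := by
  refine MZ.congr (fun w => ?_) h.reverse
  rw [d4_rev_right, d4_rev_right]

/-- reversal of a sum of three subword counts -/
theorem MZ_rev3 (u v x : List A) (h : MZ (fun w => C w u + C w v + C w x)) :
    MZ (fun w => C w u.reverse + C w v.reverse + C w x.reverse) := by
  refine MZ.congr (fun w => ?_) h.reverse
  rw [d4_rev_right, d4_rev_right, d4_rev_right]

/-- product of two letter counts, distinct letters -/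
theorem d4_mul_xy (w : List A) (x y : A) (hxy : x ≠ y) :
    C w [x] * C w [y] = C w [x, y] + C w [y, x] := by
  rw [C_mul]
  simp [infil_cons_cons, infil_nil_left, infil_nil_right, hxy]

/-- square of a letter count -/
theorem d4_mul_xx (w : List A) (x : A) :
    C w [x] * C w [x] = 2 * C w [x, x] + C w [x] := by
  rw [C_mul]
  simp [infil_cons_cons, infil_nil_left, infil_nil_right]
  ring

/-- product with a new letter -/
theorem d4_mul_xy_z (w : List A) (x y z : A) (hxz : x ≠ z) (hyz : y ≠ z) :
    C w [x, y] * C w [z] = C w [x, y, z] + C w [x, z, y] + C w [z, x, y] := by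
  rw [C_mul]
  simp [infil_cons_cons, infil_nil_left, infil_nil_right, hxz, hyz]
  ring

/-- product with the same letter -/
theorem d4_mul_xx_x (w : List A) (x : A) :
    C w [x, x] * C w [x] = 3 * C w [x, x, x] + 2 * C w [x, x] := by
  rw [C_mul]
  simp [infil_cons_cons, infil_nil_left, infil_nil_right]
  ring

/-- From `polyA3` (`x, y, z` distinct): all orders of `x, y, z` followed by `t`. -/
theorem perm3 [Finite A] (x y z t : A) (hxy : x ≠ y) (hxz : x ≠ z) (hyz : y ≠ z)
    (hx : x ≠ t) (hy : y ≠ t) (hz : z ≠ t) :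
    MZ (fun w => C w [x, y, z, t] + C w [x, z, y, t] + C w [y, x, z, t] + C w [y, z, x, t] +
      C w [z, x, y, t] + C w [z, y, x, t]) := by
  refine MZ.congr (fun w => ?_) (polyA3 t x y z hx hy hz)
  have e : ∀ u : List A, C u [x] * C u [y] * C u [z] =
      C u [x, y, z] + C u [x, z, y] + C u [y, x, z] + C u [y, z, x] + C u [z, x, y] +
        C u [z, y, x] := by
    intro u
    rw [d4_mul_xy u x y hxy, add_mul, d4_mul_xy_z u x y z hxz hyz, d4_mul_xy_z u y x z hyz hxz]
    ring
  rw [IS_congr e]
  simp only [IS_add, IS_C, List.cons_append, List.nil_append]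

/-- From `polyA3` with a repeated letter. -/
theorem perm21 [Finite A] (x z t : A) (hxz : x ≠ z) (hx : x ≠ t) (hz : z ≠ t) :
    MZ (fun w => C w [x, x, z, t] + C w [x, z, x, t] + C w [z, x, x, t]) := by
  have h := ((polyA3 t x x z hx hx hz).sub (deg3 x z t)).sub (deg3 z x t)
  refine MZ.div 2 two_ne_zero (MZ.congr (fun w => ?_) h)
  have e : ∀ u : List A, C u [x] * C u [x] * C u [z] =
      2 * (C u [x, x, z] + C u [x, z, x] + C u [z, x, x]) + C u [x, z] + C u [z, x] := by
    intro u
    rw [d4_mul_xx u x, add_mul, mul_assoc, d4_mul_xy_z u x x z hxz hxz, d4_mul_xy u x z hxz]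
    ring
  rw [IS_congr e]
  simp only [IS_add, IS_const_mul, IS_C, List.cons_append, List.nil_append]
  ring

/-- From `polyA3` with `x = y = z`. -/
theorem perm111 [Finite A] (x t : A) (hx : x ≠ t) : MZ (fun w => C w [x, x, x, t]) := by
  have h := ((polyA3 t x x x hx hx hx).sub ((deg3 x x t).smul 6)).sub (deg2 x t)
  refine MZ.div 6 (by norm_num) (MZ.congr (fun w => ?_) h)
  have e : ∀ u : List A, C u [x] * C u [x] * C u [x] =
      6 * C u [x, x, x] + 6 * C u [x, x] + C u [x] := by
    intro u
    rw [d4_mul_xx u x, add_mul, mul_assoc, d4_mul_xx_x u x, d4_mul_xx u x]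
    ring
  rw [IS_congr e]
  simp only [IS_add, IS_const_mul, IS_C, List.cons_append, List.nil_append]
  ring

end Pool.Agent.NIL
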