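import Pool.Agent.NIL.Deg4

/-!
# Subword counts of length four, at most two letters
-/

set_option autoImplicit false

namespace Pool.Agent.NIL

open Pool.Agent.GSH

variable {A : Type}

namespace Deg4pAux

theorem m_a_a (w : List A) (a : A) : C w [a] * C w [a] = 2 * C w [a, a] + C w [a] := by
  rw [C_mul]
  simp [infil_cons_cons, infil_nil_left, infil_nil_right]
  ring

theorem m_a_aa (w : List A) (a : A) : C w [a] * C w [a, a] = 3 * C w [a, a, a] + 2 * C w [a, a] := by
  rw [C_mul]
  simp [infil_cons_cons, infil_nil_left, infil_nil_right]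
  ring

theorem m_a_aaa (w : List A) (a : A) :
    C w [a] * C w [a, a, a] = 4 * C w [a, a, a, a] + 3 * C w [a, a, a] := by
  rw [C_mul]
  simp [infil_cons_cons, infil_nil_left, infil_nil_right]
  ring

theorem m_a_b (w : List A) (a b : A) (hab : a ≠ b) :
    C w [a] * C w [b] = C w [a, b] + C w [b, a] := by
  rw [C_mul]
  simp [infil_cons_cons, infil_nil_left, infil_nil_right, hab]

theorem m_b_aa (w : List A) (a b : A) (hab : a ≠ b) :
    C w [b] * C w [a, a] = C w [b, a, a] + C w [a, b, a] + C w [a, a, b] := by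
  rw [C_mul]
  simp [infil_cons_cons, infil_nil_left, infil_nil_right, hab, hab.symm]
  ring

theorem m_a_aab (w : List A) (a b : A) (hab : a ≠ b) :
    C w [a] * C w [a, a, b] =
      3 * C w [a, a, a, b] + C w [a, a, b, a] + 2 * C w [a, a, b] := by
  rw [C_mul]
  simp [infil_cons_cons, infil_nil_left, infil_nil_right, hab, hab.symm]
  ring

theorem m_a_abb (w : List A) (a b : A) (hab : a ≠ b) :
    C w [a] * C w [a, b, b] =
      2 * C w [a, a, b, b] + C w [a, b, a, b] + C w [a, b, b, a] + C w [a, b, b] := by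
  rw [C_mul]
  simp [infil_cons_cons, infil_nil_left, infil_nil_right, hab, hab.symm]
  ring

theorem m_b_aab (w : List A) (a b : A) (hab : a ≠ b) :
    C w [b] * C w [a, a, b] =
      2 * C w [a, a, b, b] + C w [a, b, a, b] + C w [b, a, a, b] + C w [a, a, b] := by
  rw [C_mul]
  simp [infil_cons_cons, infil_nil_left, infil_nil_right, hab, hab.symm]
  ring

theorem m_a_bab (w : List A) (a b : A) (hab : a ≠ b) :
    C w [a] * C w [b, a, b] =
      C w [a, b, a, b] + 2 * C w [b, a, a, b] + C w [b, a, b, a] + C w [b, a, b] := by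
  rw [C_mul]
  simp [infil_cons_cons, infil_nil_left, infil_nil_right, hab, hab.symm]
  ring

theorem m_a_bba (w : List A) (a b : A) (hab : a ≠ b) :
    C w [a] * C w [b, b, a] =
      C w [a, b, b, a] + C w [b, a, b, a] + 2 * C w [b, b, a, a] + C w [b, b, a] := by
  rw [C_mul]
  simp [infil_cons_cons, infil_nil_left, infil_nil_right, hab, hab.symm]
  ring

theorem m_ab_ab (w : List A) (a b : A) (hab : a ≠ b) :
    C w [a, b] * C w [a, b] =
      4 * C w [a, a, b, b] + 2 * C w [a, b, a, b] + 2 * C w [a, a, b] + 2 * C w [a, b, b]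
        + C w [a, b] := by
  rw [C_mul]
  simp [infil_cons_cons, infil_nil_left, infil_nil_right, hab, hab.symm]
  ring

/-- cube of the difference -/
theorem cube (w : List A) (a b : A) (hab : a ≠ b) :
    (C w [a] - C w [b]) ^ 3 =
      6 * C w [a, a, a] - 6 * C w [a, a, b] - 6 * C w [a, b, a] - 6 * C w [b, a, a]
      + 6 * C w [a, b, b] + 6 * C w [b, a, b] + 6 * C w [b, b, a] - 6 * C w [b, b, b]
      + 6 * C w [a, a] - 6 * C w [b, b] + 1 * C w [a] - 1 * C w [b] := by
  have h1 := m_a_a w a
  have h2 := m_a_a w b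
  have h3 := m_a_aa w a
  have h4 := m_a_aa w b
  have h5 := m_a_b w a b hab
  have h6 := m_b_aa w a b hab
  have h7 := m_b_aa w b a hab.symm
  linear_combination (C w [a]) * h1 - (C w [b]) * h2 + 2 * h3 - 2 * h4
    - 3 * (C w [b]) * h1 + 3 * (C w [a]) * h2 - 6 * h6 + 6 * h7 + h1 - h2 + 0 * h5

end Deg4pAux

open Deg4pAux

theorem p_aaaa [Finite A] (a : A) : MZ (fun w => C w [a, a, a, a]) := by
  refine MZ.div 4 (by norm_num) ?_
  refine MZ.congr (fun w => ?_) (((deg1 a).mul (deg3 a a a)).sub ((deg3 a a a).smul 3))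
  linear_combination m_a_aaa w a

theorem p_aaba [Finite A] (a b : A) (hab : a ≠ b) : MZ (fun w => C w [a, a, b, a]) := by
  refine MZ.congr (fun w => ?_) ((((deg1 a).mul (deg3 a a b)).sub ((deg3 a a b).smul 2)).sub
    ((perm111 a b hab).smul 3))
  linear_combination m_a_aab w a b hab

theorem p_abaa [Finite A] (a b : A) (hab : a ≠ b) : MZ (fun w => C w [a, b, a, a]) :=
  MZ_rev [a, a, b, a] (p_aaba a b hab)

theorem p_baaa [Finite A] (a b : A) (hab : a ≠ b) : MZ (fun w => C w [b, a, a, a]) :=
  MZ_rev [a, a, a, b] (perm111 a b hab)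

namespace Deg4pAux

/-- `abab + 2 aabb` -/
theorem r_abab [Finite A] (a b : A) (hab : a ≠ b) :
    MZ (fun w => C w [a, b, a, b] + 2 * C w [a, a, b, b]) := by
  refine MZ.div 2 (by norm_num) ?_
  refine MZ.congr (fun w => ?_) (((((deg2 a b).mul (deg2 a b)).sub ((deg3 a a b).smul 2)).sub
    ((deg3 a b b).smul 2)).sub (deg2 a b))
  linear_combination m_ab_ab w a b hab

/-- `abba` -/
theorem r_abba [Finite A] (a b : A) (hab : a ≠ b) :
    MZ (fun w => C w [a, b, b, a]) := by
  refine MZ.congr (fun w => ?_) ((((deg1 a).mul (deg3 a b b)).sub (deg3 a b b)).sub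
    (r_abab a b hab))
  linear_combination m_a_abb w a b hab

/-- `baba - 2 aabb` -/
theorem r_baba [Finite A] (a b : A) (hab : a ≠ b) :
    MZ (fun w => C w [b, a, b, a] - 2 * C w [a, a, b, b]) := by
  refine MZ.congr (fun w => ?_) (((((deg1 a).mul (deg3 b a b)).sub (deg3 b a b)).sub
    (r_abab a b hab)).sub ((r_abba b a hab.symm).smul 2))
  linear_combination m_a_bab w a b hab

/-- `bbaa + aabb` -/
theorem r_bbaa [Finite A] (a b : A) (hab : a ≠ b) :
    MZ (fun w => C w [b, b, a, a] + C w [a, a, b, b]) := by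
  refine MZ.div 2 (by norm_num) ?_
  refine MZ.congr (fun w => ?_) (((((deg1 a).mul (deg3 b b a)).sub (deg3 b b a)).sub
    (r_baba a b hab)).sub (r_abba a b hab))
  linear_combination m_a_bba w a b hab

theorem is_one (a b c : A) (hab : a ≠ b) (w : List A) :
    IS (fun x => x = c) (fun u => (C u [a] - C u [b]) ^ 3) w =
      6 * C w [a, a, a, c] - 6 * C w [a, a, b, c] - 6 * C w [a, b, a, c] - 6 * C w [b, a, a, c]
      + 6 * C w [a, b, b, c] + 6 * C w [b, a, b, c] + 6 * C w [b, b, a, c] - 6 * C w [b, b, b, c]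
      + 6 * C w [a, a, c] - 6 * C w [b, b, c] + 1 * C w [a, c] - 1 * C w [b, c] := by
  rw [IS_congr (fun v => cube v a b hab)]
  simp only [IS_add, IS_sub, IS_const_mul, IS_C, List.cons_append, List.nil_append]

theorem is_two (a b : A) (hab : a ≠ b) (w : List A) :
    IS (fun x => x = a ∨ x = b) (fun u => (C u [a] - C u [b]) ^ 3) w =
      (6 * C w [a, a, a, a] - 6 * C w [a, a, b, a] - 6 * C w [a, b, a, a] - 6 * C w [b, a, a, a]
      + 6 * C w [a, b, b, a] + 6 * C w [b, a, b, a] + 6 * C w [b, b, a, a] - 6 * C w [b, b, b, a]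
      + 6 * C w [a, a, a] - 6 * C w [b, b, a] + 1 * C w [a, a] - 1 * C w [b, a]) +
      (6 * C w [a, a, a, b] - 6 * C w [a, a, b, b] - 6 * C w [a, b, a, b] - 6 * C w [b, a, a, b]
      + 6 * C w [a, b, b, b] + 6 * C w [b, a, b, b] + 6 * C w [b, b, a, b] - 6 * C w [b, b, b, b]
      + 6 * C w [a, a, b] - 6 * C w [b, b, b] + 1 * C w [a, b] - 1 * C w [b, b]) := by
  rw [IS_union (fun x => x = a) (fun x => x = b) (by rintro x rfl; exact hab), is_one a b a hab,
    is_one a b b hab]

end Deg4pAux

/-- The six words with two letters `a` and two letters `b`: the products `C_mul [a] [a,b,b]`,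
`C_mul [b] [a,a,b]`, `C_mul [a] [b,a,b]`, `C_mul [a] [b,b,a]`, `C_mul [a,b] [a,b]` show that all of
them are integer multiples of `t = aabb` modulo `MZ`: `abab = -2t, abba = 0, baab = 0,
baba = 2t, bbaa = -t`; and `polyS3` gives `2 t`, up to words with three equal letters. -/
theorem p_aabb [Finite A] (a b : A) (hab : a ≠ b) : MZ (fun w => C w [a, a, b, b]) := by
  refine MZ.div 12 (by norm_num) ?_
  have k1 := (p_aaaa a).smul 6
  have k2 := (p_aaba a b hab).smul 6
  have k3 := (p_abaa a b hab).smul 6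
  have k4 := (p_baaa a b hab).smul 6
  have k5 := (r_abba a b hab).smul 6
  have k6 := (r_baba a b hab).smul 6
  have k7 := (r_bbaa a b hab).smul 6
  have k8 := (perm111 b a hab.symm).smul 6
  have k9 := (deg3 a a a).smul 6
  have k10 := (deg3 b b a).smul 6
  have k11 := deg2 a a
  have k12 := deg2 b a
  have l1 := (perm111 a b hab).smul 6
  have l3 := (r_abab a b hab).smul 6
  have l4 := (r_abba b a hab.symm).smul 6
  have l5 := (p_baaa b a hab.symm).smul 6
  have l6 := (p_abaa b a hab.symm).smul 6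
  have l7 := (p_aaba b a hab.symm).smul 6
  have l8 := (p_aaaa b).smul 6
  have l9 := (deg3 a a b).smul 6
  have l10 := (deg3 b b b).smul 6
  have l11 := deg2 a b
  have l12 := deg2 b b
  have key := polyS3 a b hab
  have s1 := ((((((key.sub k1).add k2).add k3).add k4).sub k5).sub k6).sub k7
  have s2 := ((((s1.add k8).sub k9).add k10).sub k11).add k12
  have s3 := (((((((s2.sub l1).add l3).add l4).sub l5).sub l6).sub l7).add l8)
  have s4 := (((s3.sub l9).add l10).sub l11).add l12
  refine MZ.congr (fun w => ?_) s4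
  linear_combination is_two a b hab w

theorem p_abab [Finite A] (a b : A) (hab : a ≠ b) : MZ (fun w => C w [a, b, a, b]) := by
  refine MZ.congr (fun w => ?_) ((r_abab a b hab).sub ((p_aabb a b hab).smul 2))
  ring

theorem p_abba [Finite A] (a b : A) (hab : a ≠ b) : MZ (fun w => C w [a, b, b, a]) :=
  r_abba a b hab

end Pool.Agent.NIL
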