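import Pool.Agent.NIL.BlkInd

/-!
# The second family: sums of `C w [b, x, y, c]`
-/

set_option autoImplicit false

namespace Pool.Agent.NIL

open Pool.Agent.GSH

variable {A : Type}

/-- the sum, over the letters `b` of `u`, of the square of the number of letters of `E` which
come strictly after it -/
noncomputable def G2 (E : A → Prop) (b : A) (u : List A) : ℤ :=
  IS (fun x => x = b) (fun v => ((nE E u : ℤ) - (nE E v : ℤ) - 1) ^ 2) u

namespace FamBAux

open Classical in
theorem G2_mod (q : ℕ) [NeZero q] (E : A → Prop) (b : A) (u : List A) :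
    ((G2 E b u : ℤ) : ZMod q) =
      ((∑ i : ZMod q, ((i.val : ℤ)) ^ 2 * NB q E b i u : ℤ) : ZMod q) := by
  have h1 : ∑ i : ZMod q, ((i.val : ℤ)) ^ 2 * NB q E b i u =
      IS (fun x => x = b) (fun v => ∑ i : ZMod q, ((i.val : ℤ)) ^ 2 *
        (if ((nE E v : ℕ) : ZMod q) = ((nE E u : ℕ) : ZMod q) - 1 - i then 1 else 0)) u := by
    rw [IS_sum]
    refine Finset.sum_congr rfl fun i _ => ?_
    rw [IS_const_mul]
    rfl
  rw [h1]
  unfold G2
  refine IS_cast_congr _ q (fun v => ?_) u
  rw [Finset.sum_eq_single (((nE E u : ℕ) : ZMod q) - 1 - ((nE E v : ℕ) : ZMod q))]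
  · rw [if_pos (by ring)]
    push_cast
    rw [ZMod.natCast_val, ZMod.cast_id]
    ring
  · intro i _ hi
    rw [if_neg, mul_zero]
    intro h
    apply hi
    rw [h]
    ring
  · intro h
    exact absurd (Finset.mem_univ _) h

/-- zeroth powers -/
theorem G0_eq (b : A) (u : List A) : IS (fun x => x = b) (fun _ => (1 : ℤ)) u = C u [b] := by
  have h := IS_C [] b u
  rw [List.nil_append] at h
  rw [← h]
  exact IS_congr (fun v => (C_nil v).symm) u

open Classical in
theorem C_app (w u : List A) (a b : A) :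
    C (w ++ [a]) (u ++ [b]) = C w (u ++ [b]) + if a = b then C w u else 0 := by
  rw [C_append_singleton]

/-- first powers -/
theorem G1_eq (E : Finset A) (b : A) (hb : b ∈ E) (u : List A) :
    IS (fun x => x = b) (fun v => ((nE (fun a => a ∈ E) u : ℤ) - (nE (fun a => a ∈ E) v : ℤ) - 1)) u
      = ∑ x ∈ E, C u [b, x] := by
  classical
  induction u using List.reverseRecOn with
  | nil =>
    rw [IS_nil]
    refine (Finset.sum_eq_zero fun x _ => ?_).symm
    exact C_nil_cons b [x]
  | append_singleton u a ih =>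
    have hC : ∀ x, C (u ++ [a]) [b, x] = C u [b, x] + if a = x then C u [b] else 0 := fun x =>
      C_app u [b] a x
    rw [IS_append_singleton, Finset.sum_congr rfl (fun x _ => hC x), Finset.sum_add_distrib,
      Finset.sum_ite_eq, ← ih]
    by_cases ha : a ∈ E
    · have hn : (nE (fun a => a ∈ E) (u ++ [a]) : ℤ) = nE (fun a => a ∈ E) u + 1 := by
        rw [nE_append, nE_singleton, if_pos ha]
        push_cast
        ring
      rw [if_pos ha, ← G0_eq b u, ← IS_add]
      have e1 : (if a = b then (((nE (fun a => a ∈ E) (u ++ [a]) : ℤ) -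
          (nE (fun a => a ∈ E) u : ℤ) - 1)) else 0) = 0 := by
        rw [hn]
        split_ifs <;> ring
      rw [e1, add_zero]
      refine IS_congr (fun v => ?_) u
      rw [hn]
      ring
    · have hn : (nE (fun a => a ∈ E) (u ++ [a]) : ℤ) = nE (fun a => a ∈ E) u := by
        rw [nE_append, nE_singleton, if_neg ha]
        push_cast
        ring
      have hab : a ≠ b := fun e => ha (e ▸ hb)
      rw [if_neg ha, if_neg hab, add_zero, add_zero, hn]

end FamBAux

open FamBAux

/-- Modulo `p^s` the function `G2` is the sum of `i^2 * NB (p^s) E b i`. -/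
theorem G2_meas [Finite A] (E : A → Prop) (c : A) (hc : ¬ E c) (b : A) (hb : E b) :
    MZ (IS (fun a => a = c) (G2 E b)) := by
  refine MZ.of_pow fun p s hp => ?_
  have : NeZero (p ^ s) := ⟨pow_ne_zero s hp.ne_zero⟩
  have h1 : MZ (fun w => ∑ i : ZMod (p ^ s), ((i.val : ℤ)) ^ 2 *
      IS (fun a => a = c) (NB (p ^ s) E b i) w) :=
    MZ.sum _ _ fun i _ => MZ.smul _ (NB_meas p s hp E c hc b hb i)
  have h2 := h1 (p ^ s) (Nat.pos_of_ne_zero (NeZero.ne _))
  have h3 : (fun w => ((IS (fun a => a = c) (G2 E b) w : ℤ) : ZMod (p ^ s))) =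
      (fun w => ((∑ i : ZMod (p ^ s), ((i.val : ℤ)) ^ 2 *
        IS (fun a => a = c) (NB (p ^ s) E b i) w : ℤ) : ZMod (p ^ s))) := by
    funext w
    rw [IS_cast_congr (fun a => a = c) (p ^ s) (fun v => G2_mod (p ^ s) E b v) w, IS_sum]
    congr 1
    refine Finset.sum_congr rfl fun i _ => ?_
    rw [IS_const_mul]
  rw [h3]
  exact h2

/-- `G2` in terms of subword counts (induction from the right; one needs also the formula for the
sum of the first powers) -/
theorem G2_eq (E : Finset A) (b : A) (hb : b ∈ E) (u : List A) :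
    G2 (fun a => a ∈ E) b u =
      2 * ∑ x ∈ E, ∑ y ∈ E, C u [b, x, y] + ∑ x ∈ E, C u [b, x] := by
  classical
  induction u using List.reverseRecOn with
  | nil =>
    have h0 : G2 (fun a => a ∈ E) b ([] : List A) = 0 := IS_nil _ _
    rw [h0, Finset.sum_eq_zero fun x _ => Finset.sum_eq_zero fun y _ => C_nil_cons b [x, y],
      Finset.sum_eq_zero fun x _ => C_nil_cons b [x]]
    rfl
  | append_singleton u a ih =>
    have hC : ∀ x, C (u ++ [a]) [b, x] = C u [b, x] + if a = x then C u [b] else 0 := fun x =>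
      C_app u [b] a x
    have hC2 : ∀ x y, C (u ++ [a]) [b, x, y] = C u [b, x, y] + if a = y then C u [b, x] else 0 :=
      fun x y => C_app u [b, x] a y
    have e2 : ∑ x ∈ E, ∑ y ∈ E, C (u ++ [a]) [b, x, y] =
        ∑ x ∈ E, ∑ y ∈ E, C u [b, x, y] + ∑ x ∈ E, (if a ∈ E then C u [b, x] else 0) := by
      rw [← Finset.sum_add_distrib]
      refine Finset.sum_congr rfl fun x _ => ?_
      rw [Finset.sum_congr rfl (fun y _ => hC2 x y), Finset.sum_add_distrib, Finset.sum_ite_eq]
    have e3 : ∑ x ∈ E, C (u ++ [a]) [b, x] =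
        ∑ x ∈ E, C u [b, x] + if a ∈ E then C u [b] else 0 := by
      rw [Finset.sum_congr rfl (fun x _ => hC x), Finset.sum_add_distrib, Finset.sum_ite_eq]
    rw [e2, e3]
    unfold G2 at ih ⊢
    rw [IS_append_singleton]
    by_cases ha : a ∈ E
    · have hn : (nE (fun a => a ∈ E) (u ++ [a]) : ℤ) = nE (fun a => a ∈ E) u + 1 := by
        rw [nE_append, nE_singleton, if_pos ha]
        push_cast
        ring
      have e1 : (if a = b then (((nE (fun a => a ∈ E) (u ++ [a]) : ℤ) -
          (nE (fun a => a ∈ E) u : ℤ) - 1) ^ 2) else 0) = 0 := by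
        rw [hn]
        split_ifs <;> ring
      have e4 : IS (fun x => x = b) (fun v => ((nE (fun a => a ∈ E) (u ++ [a]) : ℤ) -
          (nE (fun a => a ∈ E) v : ℤ) - 1) ^ 2) u =
          IS (fun x => x = b) (fun v => ((nE (fun a => a ∈ E) u : ℤ) -
            (nE (fun a => a ∈ E) v : ℤ) - 1) ^ 2) u +
          (2 * IS (fun x => x = b) (fun v => ((nE (fun a => a ∈ E) u : ℤ) -
            (nE (fun a => a ∈ E) v : ℤ) - 1)) u + IS (fun x => x = b) (fun _ => (1 : ℤ)) u) := by
        rw [← IS_const_mul, ← IS_add, ← IS_add]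
        refine IS_congr (fun v => ?_) u
        rw [hn]
        ring
      rw [e1, add_zero, e4, ih, G1_eq E b hb u, G0_eq b u, if_pos ha]
      simp only [if_pos ha]
      ring
    · have hn : (nE (fun a => a ∈ E) (u ++ [a]) : ℤ) = nE (fun a => a ∈ E) u := by
        rw [nE_append, nE_singleton, if_neg ha]
        push_cast
        ring
      have hab : a ≠ b := fun e => ha (e ▸ hb)
      rw [if_neg hab, add_zero, hn, ih]
      simp only [if_neg ha, Finset.sum_const_zero, add_zero]

/-- The second family, modulo the functions `C w [b, x, c]`. -/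
theorem famB [Finite A] (E : Finset A) (b : A) (hb : b ∈ E) (c : A) (hc : c ∉ E)
    (h3 : ∀ x y z : A, MZ (fun w => C w [x, y, z])) :
    MZ (fun w => ∑ x ∈ E, ∑ y ∈ E, C w [b, x, y, c]) := by
  classical
  have h1 := G2_meas (fun a => a ∈ E) c hc b hb
  have h2 : MZ (fun w => ∑ x ∈ E, C w [b, x, c]) := MZ.sum _ _ fun x _ => h3 b x c
  refine MZ.div 2 (by norm_num) (MZ.congr (fun w => ?_) (MZ.sub h1 h2))
  have e1 : IS (fun a => a = c) (G2 (fun a => a ∈ E) b) w =
      IS (fun a => a = c) (fun u => 2 * ∑ x ∈ E, ∑ y ∈ E, C u [b, x, y] +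
        ∑ x ∈ E, C u [b, x]) w := IS_congr (fun u => G2_eq E b hb u) w
  have e2 : ∀ x y, IS (fun a => a = c) (fun u => C u [b, x, y]) w = C w [b, x, y, c] :=
    fun x y => IS_C [b, x, y] c w
  have e3 : ∀ x, IS (fun a => a = c) (fun u => C u [b, x]) w = C w [b, x, c] :=
    fun x => IS_C [b, x] c w
  rw [e1, IS_add, IS_const_mul, IS_sum, IS_sum, Finset.sum_congr rfl (fun x _ => e3 x),
    add_sub_cancel_right]
  congr 1
  refine Finset.sum_congr rfl fun x _ => ?_
  rw [IS_sum]
  exact Finset.sum_congr rfl fun y _ => e2 x y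

end Pool.Agent.NIL
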