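import Pool.Agent.NIL.Deg4
import Pool.Agent.NIL.FamB

/-!
# Subword counts of length four, three letters
-/

set_option autoImplicit false
set_option linter.unusedSimpArgs false

namespace Pool.Agent.NIL

open Pool.Agent.GSH

variable {A : Type}

/-- `C_mul [c] [a,a,b]`, `perm21`: `2 (aab)c`-type relation -/
theorem t_aabc [Finite A] (a b c : A) (hab : a ≠ b) (hac : a ≠ c) (hbc : b ≠ c) :
    MZ (fun w => C w [a, a, b, c]) := by
  have h1 := ((deg1 c).mul (deg3 a a b)).sub (perm21 a c b hac hab hbc.symm)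
  refine MZ.congr (fun w => ?_) h1
  have h2 := C_mul w [c] [a, a, b]
  simp [infil_cons_cons, infil_nil_left, infil_nil_right, hab, hac, hbc, hab.symm, hac.symm,
    hbc.symm] at h2
  linarith

/-- insertion of `a` into `(ac + ca)b` and `perm21` -/
theorem t_acba [Finite A] (a b c : A) (hab : a ≠ b) (hac : a ≠ c) (hbc : b ≠ c) :
    MZ (fun w => C w [a, c, b, a] + C w [c, a, b, a]) := by
  have h1 := (((((deg1 a).mul (deg3 a c b)).add ((deg1 a).mul (deg3 c a b))).sub
    (MZ.smul 2 (perm21 a c b hac hab hbc.symm))).sub (deg3 a c b)).sub (deg3 c a b)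
  refine MZ.congr (fun w => ?_) h1
  have h2 := C_mul w [a] [a, c, b]
  have h3 := C_mul w [a] [c, a, b]
  simp [infil_cons_cons, infil_nil_left, infil_nil_right, hab, hac, hbc, hab.symm, hac.symm,
    hbc.symm] at h2 h3
  linarith

/-- `perm21 a c b` and `t_aabc a c b` -/
theorem t_acab [Finite A] (a b c : A) (hab : a ≠ b) (hac : a ≠ c) (hbc : b ≠ c) :
    MZ (fun w => C w [a, c, a, b] + C w [c, a, a, b]) := by
  have h1 := (perm21 a c b hac hab hbc.symm).sub (t_aabc a c b hac hab hbc.symm)
  exact MZ.congr (fun w => by ring) h1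

/-- `C_mul [a,b] [a,c]` -/
theorem t_anti [Finite A] (a b c : A) (hab : a ≠ b) (hac : a ≠ c) (hbc : b ≠ c) :
    MZ (fun w => C w [a, b, a, c] + C w [a, c, a, b]) := by
  have h1 := (((((deg2 a b).mul (deg2 a c)).sub (MZ.smul 2 (t_aabc a b c hab hac hbc))).sub
    (MZ.smul 2 (t_aabc a c b hac hab hbc.symm))).sub (deg3 a b c)).sub (deg3 a c b)
  refine MZ.congr (fun w => ?_) h1
  have h2 := C_mul w [a, b] [a, c]
  simp [infil_cons_cons, infil_nil_left, infil_nil_right, hab, hac, hbc, hab.symm, hac.symm,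
    hbc.symm] at h2
  linarith

/-- `famB` with `E = {b, a}`, `perm111` and the relations above -/
theorem t_sym [Finite A] (a b c : A) (hab : a ≠ b) (hac : a ≠ c) (hbc : b ≠ c) :
    MZ (fun w => C w [b, a, b, c] + C w [b, a, a, c]) := by
  classical
  have h1 := famB ({b, a} : Finset A) b (by simp) c (by simp [hac.symm, hbc.symm]) deg3
  have h2 := (h1.sub (perm111 b c hbc)).sub (t_aabc b a c hab.symm hbc hac)
  refine MZ.congr (fun w => ?_) h2
  rw [Finset.sum_pair hab.symm, Finset.sum_pair hab.symm, Finset.sum_pair hab.symm]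
  ring

/-- `abac` is symmetric in `a, b` and antisymmetric in `b, c`, hence twice it is zero. -/
theorem t_abac [Finite A] (a b c : A) (hab : a ≠ b) (hac : a ≠ c) (hbc : b ≠ c) :
    MZ (fun w => C w [a, b, a, c]) := by
  -- symmetry in the first two letters
  have sym : ∀ x y z : A, x ≠ y → x ≠ z → y ≠ z →
      MZ (fun w => C w [y, x, y, z] - C w [x, y, x, z]) := by
    intro x y z hxy hxz hyz
    have h1 := (t_sym x y z hxy hxz hyz).sub (t_acab x z y hxz hxy hyz.symm)
    exact MZ.congr (fun w => by ring) h1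
  have e1 := sym a b c hab hac hbc
  have e2 := t_anti b a c hab.symm hbc hac
  have e3 := sym b c a hbc hab.symm hac.symm
  have e4 := t_anti c b a hbc.symm hac.symm hab.symm
  have e5 := sym c a b hac.symm hbc.symm hab
  have e6 := t_anti a c b hac hab hbc.symm
  apply MZ.div 2 (by norm_num)
  have h := ((((e1.neg.add e2).add e3).sub e4).sub e5).add e6
  refine MZ.congr (fun w => ?_) h
  ring

theorem t_abca [Finite A] (a b c : A) (hab : a ≠ b) (hac : a ≠ c) (hbc : b ≠ c) :
    MZ (fun w => C w [a, b, c, a]) := by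
  have h1 := ((((deg1 a).mul (deg3 a b c)).sub (MZ.smul 2 (t_aabc a b c hab hac hbc))).sub
    (t_abac a b c hab hac hbc)).sub (deg3 a b c)
  refine MZ.congr (fun w => ?_) h1
  have h2 := C_mul w [a] [a, b, c]
  simp [infil_cons_cons, infil_nil_left, infil_nil_right, hab, hac, hbc, hab.symm, hac.symm,
    hbc.symm] at h2
  linarith

theorem t_baac [Finite A] (a b c : A) (hab : a ≠ b) (hac : a ≠ c) (hbc : b ≠ c) :
    MZ (fun w => C w [b, a, a, c]) := by
  have h1 := (t_acab a c b hac hab hbc.symm).sub (t_abac a b c hab hac hbc)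
  exact MZ.congr (fun w => by ring) h1

theorem t_baca [Finite A] (a b c : A) (hab : a ≠ b) (hac : a ≠ c) (hbc : b ≠ c) :
    MZ (fun w => C w [b, a, c, a]) := by
  have h1 := ((((deg1 a).mul (deg3 b a c)).sub (MZ.smul 2 (t_baac a b c hab hac hbc))).sub
    (t_abac a b c hab hac hbc)).sub (deg3 b a c)
  refine MZ.congr (fun w => ?_) h1
  have h2 := C_mul w [a] [b, a, c]
  simp [infil_cons_cons, infil_nil_left, infil_nil_right, hab, hac, hbc, hab.symm, hac.symm,
    hbc.symm] at h2
  linarith

theorem t_bcaa [Finite A] (a b c : A) (hab : a ≠ b) (hac : a ≠ c) (hbc : b ≠ c) :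
    MZ (fun w => C w [b, c, a, a]) := by
  have h1 := MZ_rev [a, a, c, b] (t_aabc a c b hac hab hbc.symm)
  exact h1

end Pool.Agent.NIL
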