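import Pool.Agent.NIL.Deg4d
import Pool.Agent.NIL.Deg4t
import Pool.Agent.NIL.Deg4p

/-!
# All subword counts of length at most four
-/

set_option autoImplicit false

namespace Pool.Agent.NIL

open Pool.Agent.GSH

variable {A : Type}

theorem deg4 [Finite A] (a b c d : A) : MZ (fun w => C w [a, b, c, d]) := by
  by_cases hab : a = b
  · subst hab
    by_cases hac : a = c
    · subst hac
      by_cases had : a = d
      · subst had
        exact p_aaaa a
      · exact perm111 a d had
    · by_cases had : a = d
      · subst had
        exact p_aaba a c hac
      · by_cases hcd : c = d
        · subst hcd
          exact p_aabb a c hac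
        · exact t_aabc a c d hac had hcd
  · by_cases hac : a = c
    · subst hac
      by_cases had : a = d
      · subst had
        exact p_abaa a b hab
      · by_cases hbd : b = d
        · subst hbd
          exact p_abab a b hab
        · exact t_abac a b d hab had hbd
    · by_cases had : a = d
      · subst had
        by_cases hbc : b = c
        · subst hbc
          exact p_abba a b hab
        · exact t_abca a b c hab hac hbc
      · by_cases hbc : b = c
        · subst hbc
          by_cases hbd : b = d
          · subst hbd
            exact p_baaa b a (Ne.symm hab)
          · exact t_baac b a d (Ne.symm hab) hbd had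
        · by_cases hbd : b = d
          · subst hbd
            exact t_baca b a c (Ne.symm hab) hbc hac
          · by_cases hcd : c = d
            · subst hcd
              exact t_bcaa c a b (Ne.symm hac) (Ne.symm hbc) hab
            · exact deg4_distinct a b c d hab hac had hbc hbd hcd

theorem deg_le_four [Finite A] (u : List A) (hu : u.length ≤ 4) : MZ (fun w => C w u) := by
  match u, hu with
  | [], _ =>
    refine MZ.congr (f := fun _ => (1 : ℤ)) ?_ (MZ.const 1)
    intro w
    cases w <;> simp [C]
  | [a], _ => exact deg1 a
  | [a, b], _ => exact deg2 a b
  | [a, b, c], _ => exact deg3 a b c
  | [a, b, c, d], _ => exact deg4 a b c d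
  | _ :: _ :: _ :: _ :: _ :: _, hu =>
    exfalso
    simp only [List.length_cons] at hu
    omega

end Pool.Agent.NIL
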