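import Pool.Agent.NIL.Deg4
import Pool.Agent.NIL.FamB

/-!
# Subword counts of length four, distinct letters
-/

set_option autoImplicit false

namespace Pool.Agent.NIL

open Pool.Agent.GSH

variable {A : Type}

/-- inclusion-exclusion over `E = {b}, {b,x}, {b,y}, {b,x,y}` in `famB` -/
theorem mid_swap [Finite A] (b x y c : A) (hbx : b ≠ x) (hby : b ≠ y) (hxy : x ≠ y)
    (hbc : b ≠ c) (hxc : x ≠ c) (hyc : y ≠ c) :
    MZ (fun w => C w [b, x, y, c] + C w [b, y, x, c]) := by
  classical
  have h3 : ∀ x y z : A, MZ (fun w => C w [x, y, z]) := deg3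
  have H1 := famB ({b} : Finset A) b (by simp) c (by simp [hbc.symm]) h3
  have H2 := famB ({b, x} : Finset A) b (by simp) c (by simp [hbc.symm, hxc.symm]) h3
  have H3 := famB ({b, y} : Finset A) b (by simp) c (by simp [hbc.symm, hyc.symm]) h3
  have H4 := famB ({b, x, y} : Finset A) b (by simp) c
    (by simp [hbc.symm, hxc.symm, hyc.symm]) h3
  refine MZ.congr ?_ (MZ.add (MZ.sub (MZ.sub H4 H2) H3) H1)
  intro w
  have e1 : ∀ f : A → ℤ, ∑ z ∈ ({b, x} : Finset A), f z = f b + f x := by
    intro f
    rw [Finset.sum_insert (by simp [hbx]), Finset.sum_singleton]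
  have e2 : ∀ f : A → ℤ, ∑ z ∈ ({b, y} : Finset A), f z = f b + f y := by
    intro f
    rw [Finset.sum_insert (by simp [hby]), Finset.sum_singleton]
  have e3 : ∀ f : A → ℤ, ∑ z ∈ ({b, x, y} : Finset A), f z = f b + (f x + f y) := by
    intro f
    rw [Finset.sum_insert (by simp [hbx, hby]), Finset.sum_insert (by simp [hxy]),
      Finset.sum_singleton]
  simp only [e1, e2, e3, Finset.sum_singleton]
  ring

/-- the product of a letter count and a subword count of length three (all letters distinct) -/
private theorem C_mul_one_three (t x y z : A) (hx : x ≠ t) (hy : y ≠ t) (hz : z ≠ t) (w : List A) :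
    C w [t] * C w [x, y, z] =
      C w [t, x, y, z] + C w [x, t, y, z] + C w [x, y, t, z] + C w [x, y, z, t] := by
  rw [C_mul]
  simp only [infil_cons_cons, infil_nil_left, infil_nil_right, if_neg hx.symm, if_neg hy.symm,
    if_neg hz.symm, List.map_cons, List.map_nil, List.append_nil, List.cons_append,
    List.nil_append, List.sum_cons, List.sum_nil]
  ring

/-- the product of two subword counts of length two (all letters distinct) -/
private theorem C_mul_two_two (a b c d : A) (hac : a ≠ c) (had : a ≠ d) (hbc : b ≠ c) (hbd : b ≠ d)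
    (w : List A) :
    C w [a, b] * C w [c, d] =
      C w [a, b, c, d] + C w [a, c, b, d] + C w [a, c, d, b] + C w [c, a, b, d] +
        C w [c, a, d, b] + C w [c, d, a, b] := by
  rw [C_mul]
  simp only [infil_cons_cons, infil_nil_left, infil_nil_right, if_neg hac, if_neg had,
    if_neg hbc, if_neg hbd, List.map_cons, List.map_nil, List.append_nil, List.cons_append,
    List.nil_append, List.sum_cons, List.sum_nil]
  ring

/-- insertion of `t` into `(xy + yx)z` and `perm3` -/
theorem first_swap [Finite A] (x y z t : A) (hxy : x ≠ y) (hxz : x ≠ z) (hyz : y ≠ z)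
    (hx : x ≠ t) (hy : y ≠ t) (hz : z ≠ t) :
    MZ (fun w => C w [x, y, z, t] + C w [y, x, z, t]) := by
  have P1 : MZ (fun w => C w [t] * C w [x, y, z]) := MZ.mul (deg1 t) (deg3 x y z)
  have P2 : MZ (fun w => C w [t] * C w [y, x, z]) := MZ.mul (deg1 t) (deg3 y x z)
  have P3 := perm3 x y t z hxy hx hy hxz hyz hz.symm
  refine MZ.congr ?_ (MZ.sub (MZ.add P1 P2) P3)
  intro w
  have e1 := C_mul_one_three t x y z hx hy hz w
  have e2 := C_mul_one_three t y x z hy hx hz w
  simp only [e1, e2]
  ring

/-- `C_mul [a,b] [c,d]` and the antisymmetry under the three adjacent transpositions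
(`first_swap`, `mid_swap`, and `first_swap` reversed) give `2 * C w [a,b,c,d]`. -/
theorem deg4_distinct [Finite A] (a b c d : A) (hab : a ≠ b) (hac : a ≠ c) (had : a ≠ d)
    (hbc : b ≠ c) (hbd : b ≠ d) (hcd : c ≠ d) : MZ (fun w => C w [a, b, c, d]) := by
  -- last swap
  have last : ∀ x y z t : A, x ≠ y → x ≠ z → x ≠ t → y ≠ z → y ≠ t → z ≠ t →
      MZ (fun w => C w [x, y, z, t] + C w [x, y, t, z]) := by
    intro x y z t hxy hxz hxt hyz hyt hzt
    have h := MZ_rev2 _ _ (first_swap t z y x hzt.symm hyt.symm hyz.symm hxt.symm hxz.symm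
      hxy.symm)
    simpa using h
  have P : MZ (fun w => C w [a, b] * C w [c, d]) := MZ.mul (deg2 a b) (deg2 c d)
  -- abcd + acbd
  have m1 := mid_swap a b c d hab hac hbc had hbd hcd
  -- acbd + acdb
  have l1 := last a c b d hac hab had hbc.symm hcd hbd
  -- acbd + cabd
  have f1 := first_swap a c b d hac hab hbc.symm had hcd hbd
  -- cadb + cdab
  have m2 := mid_swap c a d b hac.symm hcd had hbc.symm hab hbd.symm
  refine MZ.div 2 (by norm_num) ?_
  refine MZ.congr ?_ (MZ.sub (MZ.sub (MZ.sub (MZ.add P m1) l1) f1) m2)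
  intro w
  have e := C_mul_two_two a b c d hac had hbc hbd w
  simp only [e]
  ring

end Pool.Agent.NIL
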