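import Pool.Agent.NIL.Defs

/-!
# The group of cubes
-/

set_option autoImplicit false

namespace Pool.Agent.NIL

open scoped commutatorElement

variable {G : Type} [Group G]

theorem EJ_mem {Γ : ℕ → Subgroup G} {n : ℕ} {J : Finset ℕ} (hJ : J ⊆ Finset.range n) {g : G}
    (hg : g ∈ Γ J.card) : EJ J g ∈ HK Γ n :=
  Subgroup.subset_closure ⟨J, hJ, g, hg, rfl⟩

theorem EJ_comm (J K : Finset ℕ) (g h : G) : ⁅EJ J g, EJ K h⁆ = EJ (J ∪ K) ⁅g, h⁆ := by
  classical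
  funext ω
  show ⁅EJ J g ω, EJ K h ω⁆ = _
  unfold EJ
  by_cases h1 : J ⊆ ω <;> by_cases h2 : K ⊆ ω <;>
    simp [h1, h2, Finset.union_subset_iff, commutatorElement_def]

theorem EJ_one (J : Finset ℕ) : EJ J (1 : G) = 1 := by
  funext ω; simp [EJ]

theorem EJ_mul (J : Finset ℕ) (g h : G) : EJ J (g * h) = EJ J g * EJ J h := by
  funext ω
  show EJ J (g * h) ω = EJ J g ω * EJ J h ω
  by_cases h1 : J ⊆ ω <;> simp [EJ, h1]

theorem EJ_inv (J : Finset ℕ) (g : G) : EJ J g⁻¹ = (EJ J g)⁻¹ := by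
  rw [eq_inv_iff_mul_eq_one, ← EJ_mul, inv_mul_cancel, EJ_one]

/-- subgroup generated by the cubes over an upper family -/
def KU (Γ : ℕ → Subgroup G) (U : Finset (Finset ℕ)) : Subgroup (Finset ℕ → G) :=
  Subgroup.closure {h | ∃ J ∈ U, ∃ g ∈ Γ J.card, h = EJ J g}

theorem KU_conj {Γ : ℕ → Subgroup G} (hΓ : Filt Γ) (U : Finset (Finset ℕ)) (J : Finset ℕ)
    (hU : ∀ K ∈ U, K ∪ J ∈ U) (g : G) (hg : g ∈ Γ J.card)
    (k : Finset ℕ → G) (hk : k ∈ KU Γ U) : (EJ J g)⁻¹ * k * EJ J g ∈ KU Γ U := by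
  unfold KU at hk
  induction hk using Subgroup.closure_induction with
  | mem x hx =>
    obtain ⟨K, hK, y, hy, rfl⟩ := hx
    have e : (EJ J g)⁻¹ * EJ K y * EJ J g = EJ K y * EJ (K ∪ J) ⁅y⁻¹, g⁻¹⁆ := by
      rw [← EJ_comm, EJ_inv, EJ_inv, commutatorElement_def]
      group
    rw [e]
    refine mul_mem (Subgroup.subset_closure ⟨K, hK, y, hy, rfl⟩)
      (Subgroup.subset_closure ⟨K ∪ J, hU K hK, _, ?_, rfl⟩)
    have h1 : ⁅y⁻¹, g⁻¹⁆ ∈ Γ (K.card + J.card) :=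
      hΓ.comm _ _ (Subgroup.commutator_mem_commutator (inv_mem hy) (inv_mem hg))
    exact hΓ.anti (Finset.card_union_le K J) h1
  | one => simp
  | mul x y _ _ hx hy =>
    have : (EJ J g)⁻¹ * (x * y) * EJ J g =
      ((EJ J g)⁻¹ * x * EJ J g) * ((EJ J g)⁻¹ * y * EJ J g) := by group
    rw [this]; exact mul_mem hx hy
  | inv x _ hx =>
    have : (EJ J g)⁻¹ * x⁻¹ * EJ J g = ((EJ J g)⁻¹ * x * EJ J g)⁻¹ := by group
    rw [this]; exact inv_mem hx

theorem KU_decomp {Γ : ℕ → Subgroup G} (hΓ : Filt Γ) (U : Finset (Finset ℕ)) (J : Finset ℕ)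
    (hU : ∀ K ∈ U, K ∪ J ∈ U) (hJ : ∀ K ∈ U, K ⊆ J → K = J)
    (h : Finset ℕ → G) (hh : h ∈ KU Γ U) :
    ∃ g ∈ Γ J.card, ∃ k ∈ KU Γ (U.erase J), h = EJ J g * k := by
  have hU' : ∀ K ∈ U.erase J, K ∪ J ∈ U.erase J := by
    intro K hK
    rw [Finset.mem_erase] at hK ⊢
    refine ⟨fun e => hK.1 (hJ K hK.2 ?_), hU K hK.2⟩
    rw [← e]; exact Finset.subset_union_left
  unfold KU at hh
  induction hh using Subgroup.closure_induction with
  | mem x hx =>
    obtain ⟨K, hK, y, hy, rfl⟩ := hx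
    by_cases e : K = J
    · subst e
      exact ⟨y, hy, 1, one_mem _, by simp⟩
    · exact ⟨1, one_mem _, EJ K y, Subgroup.subset_closure
        ⟨K, Finset.mem_erase.2 ⟨e, hK⟩, y, hy, rfl⟩, by rw [EJ_one, one_mul]⟩
  | one => exact ⟨1, one_mem _, 1, one_mem _, by rw [EJ_one, one_mul]⟩
  | mul x y _ _ hx hy =>
    obtain ⟨g, hg, k, hk, rfl⟩ := hx
    obtain ⟨g', hg', k', hk', rfl⟩ := hy
    refine ⟨g * g', mul_mem hg hg', ((EJ J g')⁻¹ * k * EJ J g') * k',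
      mul_mem (KU_conj hΓ _ J hU' g' hg' k hk) hk', ?_⟩
    rw [EJ_mul]; group
  | inv x _ hx =>
    obtain ⟨g, hg, k, hk, rfl⟩ := hx
    refine ⟨g⁻¹, inv_mem hg, (EJ J g⁻¹)⁻¹ * k⁻¹ * EJ J g⁻¹,
      KU_conj hΓ _ J hU' g⁻¹ (inv_mem hg) k⁻¹ (inv_mem hk), ?_⟩
    rw [EJ_inv]; group

theorem KU_eval {Γ : ℕ → Subgroup G} (U : Finset (Finset ℕ)) (ω : Finset ℕ)
    (hU : ∀ K ∈ U, ¬ K ⊆ ω) (h : Finset ℕ → G) (hh : h ∈ KU Γ U) : h ω = 1 := by
  unfold KU at hh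
  induction hh using Subgroup.closure_induction with
  | mem x hx =>
    obtain ⟨K, hK, y, hy, rfl⟩ := hx
    simp [EJ, hU K hK]
  | one => rfl
  | mul x y _ _ hx hy => rw [Pi.mul_apply, hx, hy, one_mul]
  | inv x _ hx => rw [Pi.inv_apply, hx, inv_one]

theorem KU_top {Γ : ℕ → Subgroup G} (hΓ : Filt Γ) (n : ℕ) (m : ℕ) (U : Finset (Finset ℕ))
    (hm : U.card = m) (hn : ∀ K ∈ U, K ⊆ Finset.range n)
    (hU : ∀ K ∈ U, ∀ J ∈ U, K ∪ J ∈ U) (h : Finset ℕ → G) (hh : h ∈ KU Γ U)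
    (h1 : ∀ ω : Finset ℕ, ω ⊂ Finset.range n → h ω = 1) : h (Finset.range n) ∈ Γ n := by
  induction m generalizing U h with
  | zero =>
    have : U = ∅ := Finset.card_eq_zero.1 hm
    rw [KU_eval U _ (by simp [this]) h hh]
    exact one_mem _
  | succ m ih =>
    have hne : U.Nonempty := by rw [← Finset.card_pos]; omega
    obtain ⟨J, hJU, hJ⟩ := U.exists_min_image (fun K => K.card) hne
    have hmin : ∀ K ∈ U, K ⊆ J → K = J := fun K hK hs =>
      Finset.eq_of_subset_of_card_le hs (hJ K hK)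
    obtain ⟨g, hg, k, hk, rfl⟩ := KU_decomp hΓ U J (fun K hK => hU K hK J hJU) hmin h hh
    have hkJ : k J = 1 := KU_eval (U.erase J) J (fun K hK hs =>
      (Finset.mem_erase.1 hK).1 (hmin K (Finset.mem_erase.1 hK).2 hs)) k hk
    by_cases e : J = Finset.range n
    · rw [Pi.mul_apply, ← e, hkJ, mul_one]
      have : EJ J g J = g := by simp [EJ]
      rw [this]
      have hc : J.card = n := by rw [e, Finset.card_range]
      rwa [hc] at hg
    · have hlt : J ⊂ Finset.range n := lt_of_le_of_ne (hn J hJU) e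
      have h2 := h1 J hlt
      rw [Pi.mul_apply, hkJ, mul_one] at h2
      have h3 : g = 1 := by simpa [EJ] using h2
      subst h3
      rw [EJ_one, one_mul] at h1 hh ⊢
      refine ih (U.erase J) (by rw [Finset.card_erase_of_mem hJU]; omega)
        (fun K hK => hn K (Finset.mem_erase.1 hK).2) ?_ k hk ?_
      · intro K hK L hL
        rw [Finset.mem_erase] at hK hL ⊢
        refine ⟨fun e2 => hK.1 (hmin K hK.2 ?_), hU K hK.2 L hL.2⟩
        rw [← e2]; exact Finset.subset_union_left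
      · exact h1

/-- An element of the cube group which is trivial off the top vertex has its top value in
`Γ n`. -/
theorem HK_top (Γ : ℕ → Subgroup G) (hΓ : Filt Γ) (n : ℕ) (h : Finset ℕ → G) (hh : h ∈ HK Γ n)
    (h1 : ∀ ω : Finset ℕ, ω ⊂ Finset.range n → h ω = 1) : h (Finset.range n) ∈ Γ n := by
  refine KU_top hΓ n _ (Finset.range n).powerset rfl (fun K hK => Finset.mem_powerset.1 hK)
    (fun K hK J hJ => Finset.mem_powerset.2 (Finset.union_subset (Finset.mem_powerset.1 hK)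
      (Finset.mem_powerset.1 hJ))) h ?_ h1
  unfold KU
  unfold HK at hh
  convert hh using 3
  ext x
  simp [Finset.mem_powerset]

end Pool.Agent.NIL
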