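import Pool.Agent.NIL.Deg4all
import Pool.Agent.NIL.Taylor
import Pool.Agent.NIL.LCS

/-!
# Languages recognised by nilpotent groups of class at most four
-/

set_option autoImplicit false

namespace Pool.Agent.NIL

open Pool.Agent.GSH

theorem main_nil {A : Type} [Finite A] {G : Type} [Group G] [Finite G] [Group.IsNilpotent G]
    (hG : Group.nilpotencyClass G ≤ 4) (f : A → G) (T : Set G) :
    Ht 1 {w : List A | (w.map f).prod ∈ T} := by
  classical
  have hbot : (⊤ : Subgroup G).lowerCentralSeries 4 = ⊥ :=
    Subgroup.lowerCentralSeries_eq_bot_iff_nilpotencyClass_le.2 hG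
  let N := Nat.card G
  have hN0 : 0 < N := Nat.card_pos
  have : NeZero N := ⟨by omega⟩
  have hN : ∀ g : G, g ^ N = 1 := fun g => pow_card_eq_one'
  have hfin : {u : List A | u.length ≤ 4}.Finite := List.finite_length_le A 4
  have : Finite {u : List A | u.length ≤ 4} := hfin
  have hm : Meas 1 (fun w : List A => fun u : {u : List A | u.length ≤ 4} =>
      ((C w u.1 : ℤ) : ZMod N)) := by
    apply Meas.pi
    intro u
    exact deg_le_four u.1 u.2 N hN0
  have h2 : Meas 1 (fun w : List A => (w.map f).prod) := by
    refine hm.determined (fun w w' e => ?_)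
    refine poly_det (fun n => (⊤ : Subgroup G).lowerCentralSeries (n - 1)) (lcs_filt G) 4 hbot f N hN
      w w' (fun u hu => ?_)
    exact congrFun e ⟨u, hu⟩
  exact h2.preimage T

end Pool.Agent.NIL
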