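import Pool.Agent.NIL.Defs

/-!
# The walk lemma
-/

set_option autoImplicit false

namespace Pool.Agent.NIL

open Pool.Agent.GSH

variable {A : Type}

section WalkAux

variable {Q : Type} (step : Q → A → Q) (disp : Q → A → ℤ) (t0 : Q) (M : ℕ)

/-- the automaton with level -/
def step2 (s : Q × ZMod M) (a : A) : Q × ZMod M :=
  (step s.1 a, s.2 + ((disp s.1 a : ℤ) : ZMod M))

/-- increments -/
def inc2 (E' : A → Prop) (s : Q × ZMod M) (a : A) : Prop := E' a ∧ s = (t0, 0)

theorem foldl_step2 (s : Q × ZMod M) (w : List A) :
    List.foldl (step2 step disp M) s w =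
      (List.foldl step s.1 w, s.2 + ((tot step disp s.1 w : ℤ) : ZMod M)) := by
  induction w generalizing s with
  | nil => simp [tot]
  | cons a w ih =>
    rw [List.foldl_cons, ih]
    simp only [step2, tot, List.foldl_cons, Int.cast_add, add_assoc]

variable {step disp t0 M}

theorem no_inc {E : A → Prop} (h0 : ∀ q a, ¬ E a → step q a = q ∧ disp q a = 0)
    {E' : A → Prop} (hE : ∀ a, E a → E' a) (v : List A)
    (h : incs (step2 step disp M) (inc2 t0 M E') (t0, 0) v = 0) : ∀ a ∈ v, ¬ E a := by
  induction v with
  | nil => simp
  | cons a v ih =>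
    by_cases hE' : E' a
    · exfalso
      simp only [incs, inc2, hE', true_and, if_true] at h
      omega
    · have hEa : ¬ E a := fun h => hE' (hE a h)
      have hs : step2 step disp M (t0, 0) a = (t0, 0) := by
        simp [step2, h0 t0 a hEa]
      have h' : incs (step2 step disp M) (inc2 t0 M E') (t0, 0) v = 0 := by
        have : ¬ inc2 t0 M E' (t0, 0) a := fun h => hE' h.1
        simpa only [incs, this, if_false, hs, zero_add] using h
      intro b hb
      rcases List.mem_cons.1 hb with rfl | hb
      · exact hEa
      · exact ih h' b hb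

theorem bounded_tot [NeZero M] (h1 : ∀ q a, |disp q a| ≤ 1)
    (h2 : ∀ q a, disp q a ≠ 0 → step q a = t0) (w : List A) (q : Q) (y : ZMod M) (Y : ℤ)
    (hY : ((Y : ℤ) : ZMod M) = y) (hYM : |Y| < M)
    (hn : ∀ u v, w = u ++ v → u ≠ [] → List.foldl (step2 step disp M) (q, y) u ≠ (t0, 0)) :
    |Y + tot step disp q w| < M := by
  induction w generalizing q y Y with
  | nil => simpa [tot] using hYM
  | cons a w ih =>
    have hne : step2 step disp M (q, y) a ≠ (t0, 0) := hn [a] w rfl (by simp)
    have h3 : |Y + disp q a| < M := by
      by_cases hd : disp q a = 0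
      · rw [hd, add_zero]; exact hYM
      · have h4 := h2 q a hd
        have h5 : y + ((disp q a : ℤ) : ZMod M) ≠ 0 := by
          intro h; apply hne
          show (step q a, y + ((disp q a : ℤ) : ZMod M)) = (t0, 0)
          rw [h4, h]
        have h6 : ((Y + disp q a : ℤ) : ZMod M) ≠ 0 := by
          rw [Int.cast_add, hY]; exact h5
        have h7 : |Y + disp q a| ≤ M := by
          have := abs_add_le Y (disp q a)
          have := h1 q a
          omega
        rcases lt_or_eq_of_le h7 with h8 | h8
        · exact h8
        · exfalso; apply h6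
          rw [ZMod.intCast_zmod_eq_zero_iff_dvd, ← dvd_abs, h8]
    have h9 := ih (step q a) (y + ((disp q a : ℤ) : ZMod M)) (Y + disp q a)
      (by rw [Int.cast_add, hY]) h3 (by
        intro u v huv hu
        exact hn (a :: u) v (by rw [huv]; rfl) (by simp))
    show |Y + (disp q a + tot step disp (step q a) w)| < M
    rw [← add_assoc]
    exact h9

theorem foldl_rep_fix {q : Q} {w : List A} (h : List.foldl step q w = q) (n : ℕ) :
    List.foldl step q (rep n w) = q := by
  induction n with
  | zero => simp [rep_zero]
  | succ n ih => rw [rep_succ', List.foldl_append, ih, h]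

theorem tot_rep_fix {q : Q} {w : List A} (h : List.foldl step q w = q) (n : ℕ) :
    tot step disp q (rep n w) = n * tot step disp q w := by
  induction n with
  | zero => simp [rep_zero, tot]
  | succ n ih =>
    rw [rep_succ', tot_append, ih, foldl_rep_fix h]; push_cast; ring

theorem step2_h4 [NeZero M] {E : A → Prop} (h0 : ∀ q a, ¬ E a → step q a = q ∧ disp q a = 0)
    (h1 : ∀ q a, |disp q a| ≤ 1)
    (h2 : ∀ q a, disp q a ≠ 0 → step q a = t0)
    (h3 : ∀ (q : Q) (w : List A), (∃ B : ℤ, ∀ n, |tot step disp q (rep n w)| ≤ B) →
      ∃ n, List.foldl step q (rep (n + 1) w) = List.foldl step q (rep n w))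
    (E' : A → Prop) (hE : ∀ a, E a → E' a) (s : Q × ZMod M) (w : List A)
    (hz : ∀ n, incs (step2 step disp M) (inc2 t0 M E') s (rep n w) = 0) :
    ∃ n, List.foldl (step2 step disp M) s (rep (n + 1) w) =
      List.foldl (step2 step disp M) s (rep n w) := by
  obtain ⟨q, y⟩ := s
  by_cases hw : ∃ a ∈ w, E a
  · have key : ∀ n, |tot step disp q (rep n w)| ≤ 2 * M := by
      intro n
      have hv := ZMod.val_lt y
      have h5 := bounded_tot (t0 := t0) h1 h2 (rep n w) q y (y.val : ℤ) (by simp)
        (by rw [abs_of_nonneg (by positivity)]; exact_mod_cast hv) (by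
          intro u v huv _ he
          have h6 := hz (n + 1)
          rw [rep_succ', huv, List.append_assoc, incs_append, he] at h6
          have h7 := no_inc (t0 := t0) (M := M) h0 hE (v ++ w) (by omega)
          obtain ⟨a, ha, hEa⟩ := hw
          exact h7 a (List.mem_append_right _ ha) hEa)
      have h6 : |tot step disp q (rep n w)| ≤ |(y.val : ℤ) + tot step disp q (rep n w)| +
          |(y.val : ℤ)| := by
        have := abs_sub ((y.val : ℤ) + tot step disp q (rep n w)) (y.val : ℤ)
        simpa using this
      have h7 : |(y.val : ℤ)| < M := by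
        rw [abs_of_nonneg (by positivity)]; exact_mod_cast hv
      omega
    obtain ⟨n, hn⟩ := h3 q w ⟨2 * M, key⟩
    set q1 := List.foldl step q (rep n w) with hq1
    have hfix : List.foldl step q1 w = q1 := by
      rw [hq1, ← List.foldl_append, ← rep_succ']; exact hn
    have htz : tot step disp q1 w = 0 := by
      by_contra hne
      have h4 := key (n + (4 * M + 1))
      have h5 := key n
      rw [rep_add, tot_append, ← hq1, tot_rep_fix hfix] at h4
      have h6 : 1 ≤ |tot step disp q1 w| := Int.one_le_abs hne
      have h7 : |((4 * M + 1 : ℕ) : ℤ) * tot step disp q1 w| ≤ 4 * M := by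
        have := abs_sub (tot step disp q (rep n w) + ((4 * M + 1 : ℕ) : ℤ) * tot step disp q1 w)
          (tot step disp q (rep n w))
        simp only [add_sub_cancel_left] at this
        omega
      rw [abs_mul, abs_of_nonneg (by positivity)] at h7
      push_cast at h7
      nlinarith
    refine ⟨n, ?_⟩
    rw [foldl_step2, foldl_step2]
    refine Prod.ext hn ?_
    show y + ((tot step disp q (rep (n + 1) w) : ℤ) : ZMod M) =
      y + ((tot step disp q (rep n w) : ℤ) : ZMod M)
    rw [rep_succ', tot_append, ← hq1, htz, add_zero]
  · push Not at hw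
    refine ⟨0, ?_⟩
    rw [rep_one, rep_zero, List.foldl_nil]
    clear hz
    induction w with
    | nil => rfl
    | cons a w ih =>
      have h4 := h0 q a (hw a (by simp))
      rw [List.foldl_cons]
      have : step2 step disp M (q, y) a = (q, y) := by simp [step2, h4]
      rw [this]
      exact ih (fun b hb => hw b (by simp [hb]))

end WalkAux

open Classical in
/-- The walk lemma: a finite automaton with displacements in `{-1, 0, 1}`, which are nonzero only
on transitions into the state `t0`, and such that runs on powers of words with bounded total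
displacement are eventually constant. Then the number of letters of `E'` read in the state `t0`
with total displacement `≡ - y0` modulo `M` is countable. -/
theorem walk {Q : Type} [Finite Q] [Finite A] (step : Q → A → Q) (disp : Q → A → ℤ) (t0 : Q)
    (E : A → Prop) (h0 : ∀ q a, ¬ E a → step q a = q ∧ disp q a = 0)
    (h1 : ∀ q a, |disp q a| ≤ 1)
    (h2 : ∀ q a, disp q a ≠ 0 → step q a = t0)
    (h3 : ∀ (q : Q) (w : List A), (∃ B : ℤ, ∀ n, |tot step disp q (rep n w)| ≤ B) →
      ∃ n, List.foldl step q (rep (n + 1) w) = List.foldl step q (rep n w))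
    (E' : A → Prop) (hE : ∀ a, E a → E' a) (M : ℕ) [NeZero M] (q0 : Q) (y0 : ZMod M) :
    MZ (IS E' (fun u => if List.foldl step q0 u = t0 ∧
      y0 + ((tot step disp q0 u : ℤ) : ZMod M) = 0 then 1 else 0)) := by
  intro m hm
  have : NeZero m := ⟨by omega⟩
  have hc := counter (step := step2 step disp M) (inc := inc2 t0 M E') (t0 := (t0, 0))
    (W := fun _ => False) (by intro q a h; left; exact h.2) (by intro q a _ h; exact h)
    (by intro q a h; exact h.elim)
    (fun s w hz => step2_h4 h0 h1 h2 h3 E' hE s w hz) m (q0, y0)
  refine (hc.comp (fun p => p.2)).determined (fun w w' e => ?_)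
  have hI : ∀ w : List A, IS E' (fun u => if List.foldl step q0 u = t0 ∧
      y0 + ((tot step disp q0 u : ℤ) : ZMod M) = 0 then 1 else 0) w =
      (incs (step2 step disp M) (inc2 t0 M E') (q0, y0) w : ℤ) := by
    intro w
    induction w using List.reverseRecOn with
    | nil => simp [IS_nil, incs]
    | append_singleton w a ih =>
      rw [IS_append_singleton, ih, incs_append, foldl_step2]
      simp only [incs, inc2, Prod.mk.injEq, add_zero, Nat.cast_add]
      congr 1
      by_cases h5 : E' a
      · simp [h5]
      · simp [h5]
  rw [hI, hI]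
  simpa using e

end Pool.Agent.NIL
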